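import Pool.Agent.H173R3.HS.Stmts

/-!
# Assembly
-/

set_option autoImplicit false

namespace Pool.Agent.H173R3.HS

open Polynomial Finset

/-- The step from the failure of the inequality to a small radical. -/
theorem small_rad (h7 : T7) (h8 : T8) (g : ℕ) (hg : 1 ≤ g) (κ : ℝ) (hκ : 0 < κ) (A : ℝ)
    (hA : 1 ≤ A) (H : ℕ) (hH : 1 ≤ H) (a : Fin (2 * g + 1) → ℤ) (hD : (poly a).discr ≠ 0)
    (hsize : (((poly a).discr.natAbs : ℕ) : ℝ) ≤ A * (H : ℝ) ^ ((2 * g + 1) * (2 * g)))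
    (hbad : ¬ ((minDisc g ((poly a).map (Int.castRingHom ℚ)) : ℕ) : ℝ) ≤
      ((badProd g ((poly a).map (Int.castRingHom ℚ)) : ℕ) : ℝ) ^ κ) :
    ((rad (poly a).discr.natAbs : ℕ) : ℝ) ≤ 2 * ((2 : ℝ) ^ (4 * g) * A) ^ (1 / κ) * A *
      (H : ℝ) ^ ((g : ℝ) + 2 * g * (2 * g + 1) / κ) := by
  set m := (poly a).discr.natAbs with hm
  have hm0 : m ≠ 0 := Int.natAbs_ne_zero.2 hD
  have hm1 : (0 : ℝ) < m := by exact_mod_cast Nat.pos_of_ne_zero hm0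
  obtain ⟨h81, h82⟩ := h8 g hg a hD
  set P := ∏ p ∈ m.primeFactors.filter (fun p => p ≠ 2 ∧ m.factorization p < 4 * g + 2), p with hP
  have hH0 : (0 : ℝ) < H := by exact_mod_cast hH
  have hH1 : (1 : ℝ) ≤ H := by exact_mod_cast hH
  have hA0 : (0 : ℝ) < A := by linarith
  have hP0 : (0 : ℝ) ≤ (P : ℝ) := Nat.cast_nonneg P
  have h1 : ((P : ℕ) : ℝ) ^ κ ≤ 2 ^ (4 * g) * (m : ℝ) := by
    have e1 : ((P : ℕ) : ℝ) ^ κ ≤
        ((badProd g ((poly a).map (Int.castRingHom ℚ)) : ℕ) : ℝ) ^ κ :=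
      Real.rpow_le_rpow hP0 (by exact_mod_cast h82) hκ.le
    have e2 : ((minDisc g ((poly a).map (Int.castRingHom ℚ)) : ℕ) : ℝ) ≤
        2 ^ (4 * g) * (m : ℝ) := by exact_mod_cast h81
    exact e1.trans ((not_le.1 hbad).le.trans e2)
  have h2 : (P : ℝ) ≤ ((2 : ℝ) ^ (4 * g) * A) ^ (1 / κ) * (H : ℝ) ^ (2 * g * (2 * g + 1) / κ) := by
    have e1 : (P : ℝ) = ((P : ℝ) ^ κ) ^ (1 / κ) := by
      rw [← Real.rpow_mul hP0, mul_one_div_cancel hκ.ne', Real.rpow_one]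
    rw [e1]
    calc ((P : ℝ) ^ κ) ^ (1 / κ) ≤ (2 ^ (4 * g) * (m : ℝ)) ^ (1 / κ) :=
          Real.rpow_le_rpow (by positivity) h1 (by positivity)
      _ ≤ (2 ^ (4 * g) * (A * (H : ℝ) ^ ((2 * g + 1) * (2 * g)))) ^ (1 / κ) := by
          refine Real.rpow_le_rpow (by positivity) ?_ (by positivity)
          gcongr
      _ = _ := by
          rw [← mul_assoc, Real.mul_rpow (by positivity) (by positivity),
            ← Real.rpow_natCast (H : ℝ), ← Real.rpow_mul hH0.le]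
          congr 2
          push_cast
          ring
  have h3 := h7 (4 * g + 2) m (by omega) hm0
  have h4 : ((rad m : ℕ) : ℝ) ≤ 2 * (P : ℝ) * (A * (H : ℝ) ^ g) := by
    have hk : 4 * g + 2 ≠ 0 := by omega
    refine le_of_pow_le_pow_left₀ hk (by positivity) ?_
    have e1 : ((rad m : ℕ) : ℝ) ^ (4 * g + 2) ≤ (2 * (P : ℝ)) ^ (4 * g + 2) * (m : ℝ) := by
      exact_mod_cast h3
    refine e1.trans ?_
    rw [mul_pow (2 * (P : ℝ))]
    refine mul_le_mul_of_nonneg_left (hsize.trans ?_) (by positivity)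
    rw [mul_pow, ← pow_mul]
    have e2 : g * (4 * g + 2) = (2 * g + 1) * (2 * g) := by ring
    rw [e2]
    have e3 : A ≤ A ^ (4 * g + 2) := by
      calc A = A ^ 1 := (pow_one A).symm
        _ ≤ A ^ (4 * g + 2) := pow_le_pow_right₀ hA (by omega)
    gcongr
  calc ((rad m : ℕ) : ℝ) ≤ 2 * (P : ℝ) * (A * (H : ℝ) ^ g) := h4
    _ ≤ 2 * (((2 : ℝ) ^ (4 * g) * A) ^ (1 / κ) * (H : ℝ) ^ (2 * g * (2 * g + 1) / κ)) *
        (A * (H : ℝ) ^ g) := by gcongr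
    _ = _ := by
        rw [Real.rpow_add hH0, Real.rpow_natCast]
        ring

/-- The box of coefficients. -/
noncomputable def boxF (n m : ℕ) (H : ℕ) : Finset (Fin n → ℤ) :=
  Fintype.piFinset fun i : Fin n => Icc (-(H : ℤ) ^ (m - (i : ℕ))) ((H : ℤ) ^ (m - (i : ℕ)))

theorem mem_boxF {n m H : ℕ} {a : Fin n → ℤ} :
    a ∈ boxF n m H ↔ ∀ i : Fin n, |a i| ≤ (H : ℤ) ^ (m - (i : ℕ)) := by
  simp [boxF, Fintype.mem_piFinset, abs_le]

theorem card_boxF_succ (n H : ℕ) :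
    (boxF (n + 1) (n + 1) H).card = (2 * H ^ (n + 1) + 1) * (boxF n n H).card := by
  have e : ∀ k : ℕ, (Icc (-(H : ℤ) ^ k) ((H : ℤ) ^ k)).card = 2 * H ^ k + 1 := by
    intro k
    rw [Int.card_Icc]
    have : ((H : ℤ) ^ k + 1 - -(H : ℤ) ^ k) = ((2 * H ^ k + 1 : ℕ) : ℤ) := by
      push_cast; ring
    rw [this, Int.toNat_natCast]
  simp only [boxF, Fintype.card_piFinset, e]
  rw [Fin.prod_univ_succ]
  congr 1
  refine Finset.prod_congr rfl fun i _ => ?_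
  have : n + 1 - ((i.succ : Fin (n + 1)) : ℕ) = n - (i : ℕ) := by
    rw [Fin.val_succ]; omega
  rw [this]

/-- The count of the coefficient vectors whose discriminant lies in a given finite set. -/
theorem count_disc (h5 : T5) (n : ℕ) (hn : 1 ≤ n) (H : ℕ) (Ds : Finset ℤ)
    (B : Set (Fin (n + 1) → ℤ)) (hB : ∀ a ∈ B, a ∈ boxF (n + 1) (n + 1) H ∧ (poly a).discr ∈ Ds) :
    B.Finite ∧ B.ncard ≤ n * Ds.card * (boxF n n H).card := by
  classical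
  have hT : ∀ (b : Fin n → ℤ) (D : ℤ), {t : ℤ | (poly (Fin.cons t b : Fin (n + 1) → ℤ)).discr =
      D}.Finite ∧ {t : ℤ | (poly (Fin.cons t b : Fin (n + 1) → ℤ)).discr = D}.ncard ≤ n := by
    intro b D
    have h := h5 n hn (Fin.cons 0 b) D
    simpa only [Fin.cons_succ] using h
  set U : Finset (Fin (n + 1) → ℤ) := (boxF n n H).biUnion fun b => Ds.biUnion fun D =>
    (hT b D).1.toFinset.image fun t => (Fin.cons t b : Fin (n + 1) → ℤ) with hU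
  have hsub : B ⊆ ↑U := by
    intro a ha
    obtain ⟨h1, h2⟩ := hB a ha
    rw [hU, Finset.mem_coe, Finset.mem_biUnion]
    refine ⟨fun i => a i.succ, ?_, ?_⟩
    · rw [mem_boxF] at h1 ⊢
      intro i
      have h3 := h1 i.succ
      have : n + 1 - ((i.succ : Fin (n + 1)) : ℕ) = n - (i : ℕ) := by
        rw [Fin.val_succ]; omega
      rwa [this] at h3
    · rw [Finset.mem_biUnion]
      have h4 : (Fin.cons (a 0) (fun i => a i.succ) : Fin (n + 1) → ℤ) = a :=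
        Fin.cons_self_tail a
      refine ⟨(poly a).discr, h2, ?_⟩
      rw [Finset.mem_image]
      refine ⟨a 0, ?_, h4⟩
      rw [Set.Finite.mem_toFinset]
      exact congrArg (fun v => (poly v).discr) h4
  have hcard : U.card ≤ (boxF n n H).card * (Ds.card * n) := by
    rw [hU]
    refine Finset.card_biUnion_le_card_mul _ _ _ fun b _ => ?_
    refine Finset.card_biUnion_le_card_mul _ _ _ fun D _ => ?_
    refine Finset.card_image_le.trans ?_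
    exact (Set.ncard_eq_toFinset_card _ (hT b D).1).symm.le.trans (hT b D).2
  refine ⟨U.finite_toSet.subset hsub, ?_⟩
  calc B.ncard ≤ (↑U : Set (Fin (n + 1) → ℤ)).ncard := Set.ncard_le_ncard hsub U.finite_toSet
    _ = U.card := Set.ncard_coe_finset U
    _ ≤ _ := by rw [mul_comm (n * Ds.card), mul_comm n]; exact hcard

/-- The finite set of the possible discriminants. -/
noncomputable def Dset (X : ℕ) (R : ℝ) : Finset ℤ :=
  insert 0 ((((Icc 1 X).filter fun m => ((rad m : ℕ) : ℝ) ≤ R).image fun m : ℕ => (m : ℤ)) ∪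
    (((Icc 1 X).filter fun m => ((rad m : ℕ) : ℝ) ≤ R).image fun m : ℕ => -(m : ℤ)))

theorem mem_Dset {X : ℕ} {R : ℝ} {D : ℤ} (h : D = 0 ∨ (D.natAbs ≤ X ∧
    ((rad D.natAbs : ℕ) : ℝ) ≤ R)) : D ∈ Dset X R := by
  rw [Dset, mem_insert]
  by_cases h0 : D = 0
  · exact Or.inl h0
  · right
    obtain ⟨h1, h2⟩ := h.resolve_left h0
    have h3 : D.natAbs ∈ (Icc 1 X).filter fun m => ((rad m : ℕ) : ℝ) ≤ R := by
      rw [mem_filter, mem_Icc]
      exact ⟨⟨Nat.one_le_iff_ne_zero.2 (Int.natAbs_ne_zero.2 h0), h1⟩, h2⟩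
    rw [mem_union, mem_image, mem_image]
    rcases Int.natAbs_eq D with h4 | h4
    · exact Or.inl ⟨_, h3, h4.symm⟩
    · exact Or.inr ⟨_, h3, h4.symm⟩

theorem card_Dset (X : ℕ) (R : ℝ) : (Dset X R).card ≤
    1 + 2 * ((Icc 1 X).filter fun m => ((rad m : ℕ) : ℝ) ≤ R).card := by
  rw [Dset]
  refine (card_insert_le _ _).trans ?_
  have h1 := card_union_le (((Icc 1 X).filter fun m => ((rad m : ℕ) : ℝ) ≤ R).image
    fun m : ℕ => (m : ℤ)) (((Icc 1 X).filter fun m => ((rad m : ℕ) : ℝ) ≤ R).image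
    fun m : ℕ => -(m : ℤ))
  have h2 := card_image_le (s := (Icc 1 X).filter fun m => ((rad m : ℕ) : ℝ) ≤ R)
    (f := fun m : ℕ => (m : ℤ))
  have h3 := card_image_le (s := (Icc 1 X).filter fun m => ((rad m : ℕ) : ℝ) ≤ R)
    (f := fun m : ℕ => -(m : ℤ))
  omega

/-- The count of the exceptions. -/
theorem main (h4 : T4) (h5 : T5) (h6 : T6) (h7 : T7) (h8 : T8) (g : ℕ) (hg : 1 ≤ g) (κ : ℝ)
    (hκ : 0 < κ) (ε : ℝ) (hε : 0 < ε) : ∃ A : ℝ, ∀ H : ℕ, 1 ≤ H →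
      ∀ B : Set (Fin (2 * g + 1) → ℤ),
      (∀ a ∈ B, a ∈ boxF (2 * g + 1) (2 * g + 1) H ∧ ((poly a).discr ≠ 0 →
        ¬ ((minDisc g ((poly a).map (Int.castRingHom ℚ)) : ℕ) : ℝ) ≤
          ((badProd g ((poly a).map (Int.castRingHom ℚ)) : ℕ) : ℝ) ^ κ)) →
      B.Finite ∧ (B.ncard : ℝ) ≤
        A * (H : ℝ) ^ (2 * g * (2 * g + 1) / κ - (g + 1) + ε) *
          ((boxF (2 * g + 1) (2 * g + 1) H).card : ℝ) := by
  obtain ⟨A4, hA4, hs⟩ := h4 (2 * g + 1) (by omega)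
  set N : ℕ := (2 * g + 1) * (2 * g) with hN
  have hN1 : 1 ≤ N := Nat.mul_pos (by omega) (by omega)
  have hN0 : (0 : ℝ) < N := by exact_mod_cast hN1
  obtain ⟨A6, hA6, hc⟩ := h6 (ε / N) (by positivity)
  set K0 : ℝ := 2 * ((2 : ℝ) ^ (4 * g) * A4) ^ (1 / κ) * A4 with hK0
  have hK01 : 1 ≤ K0 := by
    have e1 : (1 : ℝ) ≤ (2 : ℝ) ^ (4 * g) * A4 :=
      one_le_mul_of_one_le_of_one_le (one_le_pow₀ (by norm_num)) hA4
    have e2 : (1 : ℝ) ≤ ((2 : ℝ) ^ (4 * g) * A4) ^ (1 / κ) :=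
      Real.one_le_rpow e1 (by positivity)
    have e3 : (1 : ℝ) ≤ 2 * ((2 : ℝ) ^ (4 * g) * A4) ^ (1 / κ) := by linarith
    exact one_le_mul_of_one_le_of_one_le e3 hA4
  set θ : ℝ := (g : ℝ) + 2 * g * (2 * g + 1) / κ with hθ
  have hθ0 : 0 ≤ θ := by positivity
  refine ⟨(2 * g : ℝ) * (1 + 2 * (A6 * K0 * (2 * A4) ^ (ε / N))), ?_⟩
  intro H hH B hB
  have hH0 : (0 : ℝ) < H := by exact_mod_cast hH
  have hH1 : (1 : ℝ) ≤ H := by exact_mod_cast hH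
  set R : ℝ := K0 * (H : ℝ) ^ θ with hR
  set X : ℕ := ⌈A4 * (H : ℝ) ^ N⌉₊ with hX
  have hHN : (1 : ℝ) ≤ (H : ℝ) ^ N := one_le_pow₀ hH1
  have hX1 : 1 ≤ X := by
    rw [hX, Nat.one_le_ceil_iff]; positivity
  have hX2 : (X : ℝ) ≤ 2 * A4 * (H : ℝ) ^ N := by
    have h1 := (Nat.ceil_lt_add_one (a := A4 * (H : ℝ) ^ N) (by positivity)).le
    have h2 : 1 ≤ A4 * (H : ℝ) ^ N := one_le_mul_of_one_le_of_one_le hA4 hHN
    linarith
  have hHR : (1 : ℝ) ≤ (H : ℝ) ^ θ := Real.one_le_rpow hH1 hθ0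
  have hR1 : 1 ≤ R := by
    rw [hR]
    exact one_le_mul_of_one_le_of_one_le hK01 hHR
  have hmem : ∀ a ∈ B, a ∈ boxF (2 * g + 1) (2 * g + 1) H ∧ (poly a).discr ∈ Dset X R := by
    intro a ha
    obtain ⟨h1, h2⟩ := hB a ha
    refine ⟨h1, mem_Dset ?_⟩
    by_cases h0 : (poly a).discr = 0
    · exact Or.inl h0
    · right
      have h3 := hs H hH a (mem_boxF.1 h1)
      have h3' : (((poly a).discr.natAbs : ℕ) : ℝ) ≤ A4 * (H : ℝ) ^ N := by
        have e : (2 * g + 1) * (2 * g + 1 - 1) = N := by rw [hN]; congr 1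
        rwa [e] at h3
      refine ⟨?_, small_rad h7 h8 g hg κ hκ A4 hA4 H hH a h0 h3' (h2 h0)⟩
      have h5 : (((poly a).discr.natAbs : ℕ) : ℝ) ≤ (X : ℝ) := h3'.trans (Nat.le_ceil _)
      exact_mod_cast h5
  obtain ⟨hfin, hcard⟩ := count_disc h5 (2 * g) (by omega) H (Dset X R) B hmem
  refine ⟨hfin, ?_⟩
  have hbox := card_boxF_succ (2 * g) H
  have hDs : ((Dset X R).card : ℝ) ≤
      (1 + 2 * (A6 * K0 * (2 * A4) ^ (ε / N))) * (H : ℝ) ^ (θ + ε) := by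
    have h1 : ((Dset X R).card : ℝ) ≤ 1 + 2 * (A6 * R * (X : ℝ) ^ (ε / N)) := by
      have h2 := hc X R hX1 hR1
      have h3 : ((Dset X R).card : ℝ) ≤
          1 + 2 * ((((Icc 1 X).filter fun m => ((rad m : ℕ) : ℝ) ≤ R).card : ℕ) : ℝ) := by
        exact_mod_cast card_Dset X R
      linarith
    have h2 : (X : ℝ) ^ (ε / N) ≤ (2 * A4) ^ (ε / N) * (H : ℝ) ^ ε := by
      calc (X : ℝ) ^ (ε / N) ≤ (2 * A4 * (H : ℝ) ^ N) ^ (ε / N) :=
            Real.rpow_le_rpow (Nat.cast_nonneg X) hX2 (by positivity)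
        _ = (2 * A4) ^ (ε / N) * (H : ℝ) ^ ε := by
            rw [Real.mul_rpow (by positivity) (by positivity), ← Real.rpow_natCast (H : ℝ) N,
              ← Real.rpow_mul hH0.le, mul_div_cancel₀ ε hN0.ne']
    have h3 : (1 : ℝ) ≤ (H : ℝ) ^ (θ + ε) :=
      Real.one_le_rpow hH1 (by positivity)
    have h4 : R * (H : ℝ) ^ ε = K0 * (H : ℝ) ^ (θ + ε) := by
      rw [hR, mul_assoc, ← Real.rpow_add hH0]
    calc ((Dset X R).card : ℝ) ≤ 1 + 2 * (A6 * R * (X : ℝ) ^ (ε / N)) := h1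
      _ ≤ 1 + 2 * (A6 * R * ((2 * A4) ^ (ε / N) * (H : ℝ) ^ ε)) := by gcongr
      _ = 1 + 2 * (A6 * (R * (H : ℝ) ^ ε) * (2 * A4) ^ (ε / N)) := by ring
      _ = 1 + 2 * (A6 * K0 * (2 * A4) ^ (ε / N)) * (H : ℝ) ^ (θ + ε) := by
          rw [h4]; ring
      _ ≤ _ := by rw [add_mul, one_mul]; gcongr
  have hcard' : (B.ncard : ℝ) ≤ (2 * g : ℝ) * ((Dset X R).card : ℝ) *
      ((boxF (2 * g) (2 * g) H).card : ℝ) := by exact_mod_cast hcard
  have hbox' : (H : ℝ) ^ (2 * g + 1) * ((boxF (2 * g) (2 * g) H).card : ℝ) ≤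
      ((boxF (2 * g + 1) (2 * g + 1) H).card : ℝ) := by
    rw [hbox]
    push_cast
    have : (0 : ℝ) ≤ ((boxF (2 * g) (2 * g) H).card : ℝ) := Nat.cast_nonneg _
    have h2 : (0 : ℝ) ≤ (H : ℝ) ^ (2 * g + 1) := by positivity
    nlinarith
  set K : ℝ := 1 + 2 * (A6 * K0 * (2 * A4) ^ (ε / N)) with hK
  have hK0' : 0 ≤ K := by
    have : 0 ≤ K0 := by linarith
    positivity
  calc (B.ncard : ℝ) ≤ (2 * g : ℝ) * ((Dset X R).card : ℝ) *
        ((boxF (2 * g) (2 * g) H).card : ℝ) := hcard'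
    _ ≤ (2 * g : ℝ) * (K * (H : ℝ) ^ (θ + ε)) *
        ((boxF (2 * g) (2 * g) H).card : ℝ) := by gcongr
    _ = (2 * g : ℝ) * K * (H : ℝ) ^ (2 * g * (2 * g + 1) / κ - (g + 1) + ε) *
        ((H : ℝ) ^ (2 * g + 1) * ((boxF (2 * g) (2 * g) H).card : ℝ)) := by
        have e : (H : ℝ) ^ (θ + ε) =
            (H : ℝ) ^ (2 * g * (2 * g + 1) / κ - (g + 1) + ε) * (H : ℝ) ^ (2 * g + 1) := by
          rw [← Real.rpow_natCast (H : ℝ) (2 * g + 1), ← Real.rpow_add hH0]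
          congr 1
          rw [hθ]
          push_cast
          ring
        rw [e]; ring
    _ ≤ _ := by gcongr

end Pool.Agent.H173R3.HS
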