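import Mathlib

/-!
# Minimal discriminants of hyperelliptic curves over the rationals: definitions
-/

set_option autoImplicit false

namespace Pool.Agent.H173R3.HS

open Polynomial Finset

/-- The discriminant of a polynomial `P` of degree `N` or `N - 1`, seen as a binary form of
degree `N`. -/
noncomputable def discN {K : Type} [Field K] (N : ℕ) (P : K[X]) : K :=
  if P.natDegree = N then P.discr else P.leadingCoeff ^ 2 * P.discr

/-- The polynomial `(c X + d) ^ N * P ((a X + b) / (c X + d))`. -/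
noncomputable def hsub {K : Type} [Field K] (N : ℕ) (P : K[X]) (a b c d : K) : K[X] :=
  ∑ i ∈ range (N + 1), C (P.coeff i) * (C a * X + C b) ^ i * (C c * X + C d) ^ (N - i)

/-- `y ^ 2 + G y = F` is a Weierstrass model over the integers localised at `p` of the
hyperelliptic curve `y ^ 2 = f` of genus `g`. -/
structure IsModel (g p : ℕ) (f F G : ℚ[X]) : Prop where
  intF : ∀ i, ¬ p ∣ (F.coeff i).den
  intG : ∀ i, ¬ p ∣ (G.coeff i).den
  deg_le : max (2 * G.natDegree) F.natDegree ≤ 2 * g + 2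
  le_deg : 2 * g + 1 ≤ max (2 * G.natDegree) F.natDegree
  iso : ∃ a b c d e : ℚ, a * d - b * c ≠ 0 ∧ e ≠ 0 ∧
    F + C (1 / 4) * G ^ 2 = C (e ^ 2) * hsub (2 * g + 2) f a b c d

/-- The discriminant of the model `y ^ 2 + G y = F`. -/
noncomputable def modelDisc (g : ℕ) (F G : ℚ[X]) : ℚ :=
  2 ^ (4 * g) * discN (2 * g + 2) (F + C (1 / 4) * G ^ 2)

/-- The exponent of `p` in the minimal discriminant of the curve `y ^ 2 = f`. -/
noncomputable def minExp (g p : ℕ) (f : ℚ[X]) : ℕ :=
  sInf {k : ℕ | ∃ F G, IsModel g p f F G ∧ padicValRat p (modelDisc g F G) = k}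

/-- The minimal discriminant of the curve `y ^ 2 = f`. -/
noncomputable def minDisc (g : ℕ) (f : ℚ[X]) : ℕ :=
  ∏ᶠ p ∈ {p : ℕ | p.Prime}, p ^ minExp g p f

/-- The product of the primes of bad reduction of the curve `y ^ 2 = f`. -/
noncomputable def badProd (g : ℕ) (f : ℚ[X]) : ℕ :=
  ∏ᶠ p ∈ {p : ℕ | p.Prime ∧ minExp g p f ≠ 0}, p

/-- The monic polynomial of degree `n` with lower coefficients `a`. -/
noncomputable def poly {n : ℕ} (a : Fin n → ℤ) : ℤ[X] :=
  X ^ n + ∑ i : Fin n, C (a i) * X ^ (i : ℕ)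

/-- The radical. -/
def rad (m : ℕ) : ℕ := ∏ p ∈ m.primeFactors, p

end Pool.Agent.H173R3.HS
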