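import Pool.Agent.H173R3.HS.Defs

/-!
# Statements of the tasks
-/

set_option autoImplicit false

namespace Pool.Agent.H173R3.HS

open Polynomial Finset

/-- Task T1: the discriminant in terms of the roots, up to sign. -/
def T1 : Prop := ∀ (n : ℕ), 1 ≤ n → ∀ (l : ℂ), l ≠ 0 → ∀ (r : Fin n → ℂ),
  (C l * ∏ i, (X - C (r i))).discr = l ^ (2 * n - 2) * ∏ i, ∏ j ∈ univ.erase i, (r i - r j) ∨
  (C l * ∏ i, (X - C (r i))).discr = -(l ^ (2 * n - 2) * ∏ i, ∏ j ∈ univ.erase i, (r i - r j))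

/-- Task T2: the discriminant of a product of linear forms as a binary form of degree `N`,
up to sign. -/
def T2 : Prop := ∀ (N : ℕ), 2 ≤ N → ∀ (α β : Fin N → ℂ),
  (∀ i j, i ≠ j → α i * β j - α j * β i ≠ 0) →
  discN N (∏ i, (C (α i) * X + C (β i))) = ∏ i, ∏ j ∈ univ.erase i, (α i * β j - α j * β i) ∨
  discN N (∏ i, (C (α i) * X + C (β i))) = -∏ i, ∏ j ∈ univ.erase i, (α i * β j - α j * β i)

/-- Task T3: transformation of the discriminant. -/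
def T3 : Prop := ∀ (N : ℕ), 2 ≤ N → ∀ (f : ℚ[X]), f.Monic → f.natDegree = N - 1 → f.discr ≠ 0 →
  ∀ (a b c d e : ℚ), a * d - b * c ≠ 0 → e ≠ 0 →
  discN N (C (e ^ 2) * hsub N f a b c d) =
    (e ^ 2) ^ (2 * N - 2) * (a * d - b * c) ^ (N * (N - 1)) * f.discr ∨
  discN N (C (e ^ 2) * hsub N f a b c d) =
    -((e ^ 2) ^ (2 * N - 2) * (a * d - b * c) ^ (N * (N - 1)) * f.discr)

/-- Task T4: size of the discriminant. -/
def T4 : Prop := ∀ n : ℕ, 1 ≤ n → ∃ A : ℝ, 1 ≤ A ∧ ∀ H : ℕ, 1 ≤ H → ∀ a : Fin n → ℤ,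
  (∀ i : Fin n, |a i| ≤ (H : ℤ) ^ (n - (i : ℕ))) →
    (((poly a).discr.natAbs : ℕ) : ℝ) ≤ A * (H : ℝ) ^ (n * (n - 1))

/-- Task T5: few constant coefficients give the same discriminant. -/
def T5 : Prop := ∀ n : ℕ, 1 ≤ n → ∀ (a : Fin (n + 1) → ℤ) (D : ℤ),
  {t : ℤ | (poly (Fin.cons t fun i => a i.succ : Fin (n + 1) → ℤ)).discr = D}.Finite ∧
  {t : ℤ | (poly (Fin.cons t fun i => a i.succ : Fin (n + 1) → ℤ)).discr = D}.ncard ≤ n

/-- Task T6: integers of small radical. -/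
def T6 : Prop := ∀ ε : ℝ, 0 < ε → ∃ A : ℝ, 0 < A ∧ ∀ (X : ℕ) (R : ℝ), 1 ≤ X → 1 ≤ R →
  ((((Icc 1 X).filter fun m => ((rad m : ℕ) : ℝ) ≤ R).card : ℕ) : ℝ) ≤ A * R * (X : ℝ) ^ ε

/-- Task T7: the odd primes whose exponent in `m` is smaller than `k`. -/
def T7 : Prop := ∀ (k m : ℕ), 1 ≤ k → m ≠ 0 →
  (rad m) ^ k ≤ (2 * ∏ p ∈ m.primeFactors.filter (fun p => p ≠ 2 ∧ m.factorization p < k), p) ^ k *
    m

/-- Task T8: comparison of the minimal discriminant and of the bad primes with the discriminant of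
the equation. -/
def T8 : Prop := ∀ (g : ℕ), 1 ≤ g → ∀ (a : Fin (2 * g + 1) → ℤ), (poly a).discr ≠ 0 →
  minDisc g ((poly a).map (Int.castRingHom ℚ)) ≤ 2 ^ (4 * g) * (poly a).discr.natAbs ∧
  ∏ p ∈ (poly a).discr.natAbs.primeFactors.filter
    (fun p => p ≠ 2 ∧ (poly a).discr.natAbs.factorization p < 4 * g + 2), p ≤
    badProd g ((poly a).map (Int.castRingHom ℚ))

end Pool.Agent.H173R3.HS
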