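import Pool.Agent.H173R3.HS.Stmts

/-!
# Task T1 (helper853): the discriminant in terms of the roots
-/

set_option autoImplicit false

namespace Pool.Agent.H173R3.HS

open Polynomial Finset

theorem t1 : T1 := by
  intro n hn l hl r
  classical
  set Q : ℂ[X] := ∏ i, (X - C (r i)) with hQ
  set P : ℂ[X] := C l * Q with hP
  have hQm : Q.Monic := monic_prod_of_monic _ _ fun i _ => monic_X_sub_C _
  have hQd : Q.natDegree = n := by
    rw [hQ, natDegree_prod_of_monic _ _ (fun i _ => monic_X_sub_C _)]
    simp
  have hPd : P.natDegree = n := by rw [hP, natDegree_C_mul hl, hQd]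
  have hPl : P.leadingCoeff = l := by
    rw [hP, leadingCoeff_mul, leadingCoeff_C, hQm.leadingCoeff, mul_one]
  have hroots : P.roots = univ.val.map r := by
    rw [hP, roots_C_mul _ hl, hQ]
    have h1 : ∏ i, (X - C (r i)) = ((univ.val.map r).map fun a => X - C a).prod := by
      rw [Finset.prod_eq_multiset_prod, Multiset.map_map]
      rfl
    rw [h1, roots_multiset_prod_X_sub_C]
  have hdeg : 0 < P.degree := by
    rw [← natDegree_pos_iff_degree_pos, hPd]
    omega
  have hev : ∀ i, P.derivative.eval (r i) = l * ∏ j ∈ univ.erase i, (r i - r j) := by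
    intro i
    have h1 : P.derivative = C l * Q.derivative := by
      rw [hP, derivative_C_mul]
    rw [h1, eval_mul, eval_C, hQ, derivative_prod_finset, eval_finsetSum]
    congr 1
    rw [Finset.sum_eq_single i]
    · rw [eval_mul, eval_prod]
      simp
    · intro a _ hai
      rw [eval_mul, eval_prod]
      have : ∏ j ∈ univ.erase a, eval (r i) (X - C (r j)) = 0 := by
        refine Finset.prod_eq_zero (Finset.mem_erase.mpr ⟨hai.symm, Finset.mem_univ i⟩) ?_
        simp
      rw [this, zero_mul]
    · intro h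
      exact absurd (Finset.mem_univ i) h
  have hR1 := resultant_eq_prod_eval P P.derivative (n - 1)
    ((natDegree_derivative_le P).trans (by rw [hPd])) (IsAlgClosed.splits P)
  have hR2 := resultant_deriv hdeg
  rw [hPd, hPl] at hR1 hR2
  rw [hR1, hroots, Multiset.map_map] at hR2
  have hprod : (univ.val.map (P.derivative.eval ∘ r)).prod =
      l ^ n * ∏ i, ∏ j ∈ univ.erase i, (r i - r j) := by
    have h1 : (univ.val.map (P.derivative.eval ∘ r)).prod = ∏ i, P.derivative.eval (r i) := rfl
    rw [h1, Finset.prod_congr rfl fun i _ => hev i, Finset.prod_mul_distrib, Finset.prod_const,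
      Finset.card_univ, Fintype.card_fin]
  have hR3 : l ^ (n - 1) * (l ^ n * ∏ i, ∏ j ∈ univ.erase i, (r i - r j)) =
      (-1) ^ (n * (n - 1) / 2) * l * P.discr := by
    rw [← hprod]
    exact hR2
  have hpow : l ^ (n - 1) * l ^ n = l * l ^ (2 * n - 2) := by
    rw [← pow_add, ← pow_succ']
    congr 1
    omega
  rw [← mul_assoc, hpow] at hR3
  have hsq : ((-1 : ℂ) ^ (n * (n - 1) / 2)) = 1 ∨ ((-1 : ℂ) ^ (n * (n - 1) / 2)) = -1 :=
    neg_one_pow_eq_or ℂ _
  rcases hsq with h | h
  · left
    rw [h, one_mul] at hR3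
    have h4 : l * P.discr = l * (l ^ (2 * n - 2) * ∏ i, ∏ j ∈ univ.erase i, (r i - r j)) := by
      rw [← hR3]
      ring
    exact mul_left_cancel₀ hl h4
  · right
    rw [h] at hR3
    have h4 : l * P.discr = l * -(l ^ (2 * n - 2) * ∏ i, ∏ j ∈ univ.erase i, (r i - r j)) := by
      linear_combination hR3
    exact mul_left_cancel₀ hl h4

end Pool.Agent.H173R3.HS
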