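import Pool.Agent.H173R3.HS.Stmts

set_option autoImplicit false

namespace Pool.Agent.H173R3.HS

open Polynomial Finset

theorem t2_erase {n : ℕ} (g : Fin n → ℂ) (i : Fin n) :
    ∏ j ∈ univ.erase i, g j = ∏ j, (if j = i then 1 else g j) := by
  have h1 : ∏ j ∈ univ.erase i, g j = ∏ j ∈ univ.erase i, (if j = i then 1 else g j) :=
    Finset.prod_congr rfl fun j hj => by rw [if_neg (Finset.ne_of_mem_erase hj)]
  rw [h1]
  exact Finset.prod_erase _ (if_pos rfl)

theorem t2_erase_self {m : ℕ} (g : Fin (m + 1) → ℂ) (k : Fin (m + 1)) :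
    ∏ j ∈ univ.erase k, g j = ∏ j : Fin m, g (k.succAbove j) := by
  rw [t2_erase, Fin.prod_univ_succAbove _ k, if_pos rfl, one_mul]
  exact Finset.prod_congr rfl fun j _ => by rw [if_neg (Fin.succAbove_ne k j)]

theorem t2_erase_ne {m : ℕ} (g : Fin (m + 1) → ℂ) (k : Fin (m + 1)) (i : Fin m) :
    ∏ j ∈ univ.erase (k.succAbove i), g j = g k * ∏ j ∈ univ.erase i, g (k.succAbove j) := by
  rw [t2_erase, Fin.prod_univ_succAbove _ k, if_neg (Fin.succAbove_ne k i).symm]
  congr 1
  rw [t2_erase]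
  refine Finset.prod_congr rfl fun j _ => ?_
  by_cases h : j = i
  · rw [if_pos h, if_pos (by rw [h])]
  · rw [if_neg h, if_neg (fun h' => h (Fin.succAbove_right_injective h'))]

theorem t2_prod {m : ℕ} (α : Fin (m + 1) → ℂ) (hα : ∀ i, α i ≠ 0) :
    ∏ i, ∏ j ∈ univ.erase i, (α i * α j) = (∏ i, α i) ^ (2 * m) := by
  have hl : (∏ i, α i) ≠ 0 := Finset.prod_ne_zero_iff.2 fun i _ => hα i
  have h1 : ∀ i, (∏ j ∈ univ.erase i, (α i * α j)) * α i = α i ^ m * ∏ i, α i := by
    intro i
    rw [Finset.prod_mul_distrib, Finset.prod_const, Finset.card_erase_of_mem (Finset.mem_univ i),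
      Finset.card_univ, Fintype.card_fin, Nat.add_sub_cancel, mul_assoc,
      Finset.prod_erase_mul _ _ (Finset.mem_univ i)]
  have h2 : (∏ i, ∏ j ∈ univ.erase i, (α i * α j)) * ∏ i, α i =
      (∏ i, α i) ^ m * (∏ i, α i) ^ (m + 1) := by
    rw [← Finset.prod_mul_distrib, Finset.prod_congr rfl fun i _ => h1 i, Finset.prod_mul_distrib,
      Finset.prod_pow, Finset.prod_const, Finset.card_univ, Fintype.card_fin]
  apply mul_right_cancel₀ hl
  rw [h2]
  ring

theorem t2_roots {m : ℕ} (α β : Fin (m + 1) → ℂ) (hα : ∀ i, α i ≠ 0) :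
    (∏ i, α i) ^ (2 * (m + 1) - 2) * ∏ i, ∏ j ∈ univ.erase i, (-β i / α i - -β j / α j) =
      ∏ i, ∏ j ∈ univ.erase i, (α i * β j - α j * β i) := by
  have e : 2 * (m + 1) - 2 = 2 * m := by omega
  rw [e, ← t2_prod α hα, ← Finset.prod_mul_distrib]
  refine Finset.prod_congr rfl fun i _ => ?_
  rw [← Finset.prod_mul_distrib]
  refine Finset.prod_congr rfl fun j _ => ?_
  have h1 := hα i
  have h2 := hα j
  field_simp
  ring

theorem t2_poly {n : ℕ} (α β : Fin n → ℂ) (hα : ∀ i, α i ≠ 0) :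
    ∏ i, (C (α i) * X + C (β i)) = C (∏ i, α i) * ∏ i, (X - C (-β i / α i)) := by
  rw [map_prod, ← Finset.prod_mul_distrib]
  refine Finset.prod_congr rfl fun i _ => ?_
  rw [mul_sub, ← C_mul, mul_div_cancel₀ _ (hα i)]
  simp

theorem t2_deg {n : ℕ} (l : ℂ) (hl : l ≠ 0) (r : Fin n → ℂ) :
    (C l * ∏ i, (X - C (r i))).natDegree = n := by
  rw [natDegree_C_mul hl, natDegree_prod_of_monic _ _ fun i _ => monic_X_sub_C _]
  simp

theorem t2_lead {n : ℕ} (l : ℂ) (r : Fin n → ℂ) :
    (C l * ∏ i, (X - C (r i))).leadingCoeff = l := by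
  rw [leadingCoeff_mul, leadingCoeff_C, (monic_prod_of_monic _ _ fun i _ => monic_X_sub_C _).leadingCoeff,
    mul_one]

theorem t2 (h1 : T1) : T2 := by
  intro N hN α β hD
  obtain ⟨m, rfl⟩ : ∃ m, N = m + 1 := ⟨N - 1, by omega⟩
  by_cases hα : ∀ i, α i ≠ 0
  · have hl : (∏ i, α i) ≠ 0 := Finset.prod_ne_zero_iff.2 fun i _ => hα i
    rw [t2_poly α β hα]
    unfold discN
    rw [if_pos (t2_deg _ hl _)]
    have h := h1 (m + 1) (by omega) (∏ i, α i) hl (fun i => -β i / α i)
    rw [t2_roots α β hα] at h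
    exact h
  · push Not at hα
    obtain ⟨k, hk⟩ := hα
    obtain ⟨m', rfl⟩ : ∃ m', m = m' + 1 := ⟨m - 1, by omega⟩
    have hα' : ∀ i : Fin (m' + 1), α (k.succAbove i) ≠ 0 := by
      intro i hi
      apply hD k (k.succAbove i) (Fin.succAbove_ne k i).symm
      rw [hk, hi]; ring
    have hβ : β k ≠ 0 := by
      intro hb
      apply hD k (k.succAbove 0) (Fin.succAbove_ne k 0).symm
      rw [hk, hb]; ring
    set a : Fin (m' + 1) → ℂ := fun i => α (k.succAbove i) with ha
    set b : Fin (m' + 1) → ℂ := fun i => β (k.succAbove i) with hb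
    have hla : (∏ i, a i) ≠ 0 := Finset.prod_ne_zero_iff.2 fun i _ => hα' i
    have hl : β k * ∏ i, a i ≠ 0 := mul_ne_zero hβ hla
    have hP : ∏ i, (C (α i) * X + C (β i)) = C (β k * ∏ i, a i) * ∏ i, (X - C (-b i / a i)) := by
      rw [Fin.prod_univ_succAbove _ k, hk, t2_poly a b hα']
      simp only [map_zero, zero_mul, zero_add, C_mul]
      ring
    rw [hP]
    unfold discN
    rw [t2_deg _ hl, if_neg (by omega), t2_lead]
    have h := h1 (m' + 1) (by omega) (β k * ∏ i, a i) hl (fun i => -b i / a i)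
    have hR := t2_roots a b hα'
    have e : 2 * (m' + 1) - 2 = 2 * m' := by omega
    rw [e] at h hR
    have hT : ∏ i, ∏ j ∈ univ.erase i, (α i * β j - α j * β i) =
        (-1) ^ (m' + 1) * ((β k * ∏ i, a i) ^ 2 * ((β k * ∏ i, a i) ^ (2 * m') *
          ∏ i, ∏ j ∈ univ.erase i, (-b i / a i - -b j / a j))) := by
      rw [Fin.prod_univ_succAbove _ k, t2_erase_self]
      have e1 : ∀ j, α k * β (k.succAbove j) - α (k.succAbove j) * β k = (-1) * (β k * a j) := by
        intro j; rw [hk]; ring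
      have e2 : ∀ i, ∏ j ∈ univ.erase (k.succAbove i),
          (α (k.succAbove i) * β j - α j * β (k.succAbove i)) =
          (β k * a i) * ∏ j ∈ univ.erase i, (a i * b j - a j * b i) := by
        intro i
        rw [t2_erase_ne, hk]
        congr 1
        ring
      rw [Finset.prod_congr rfl fun j _ => e1 j, Finset.prod_congr rfl fun i _ => e2 i,
        Finset.prod_mul_distrib, Finset.prod_mul_distrib, Finset.prod_mul_distrib, ← hR,
        Finset.prod_mul_distrib]
      simp only [Finset.prod_const, Finset.card_univ, Fintype.card_fin]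
      ring
    rw [hT]
    rcases neg_one_pow_eq_or ℂ (m' + 1) with hs | hs
    · rcases h with h | h
      · left; rw [h, hs]; ring
      · right; rw [h, hs]; ring
    · rcases h with h | h
      · right; rw [h, hs]; ring
      · left; rw [h, hs]; ring

end Pool.Agent.H173R3.HS
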