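import Pool.Agent.H173R3.HS.Stmts

/-!
# Task T3: transformation of the discriminant
-/

set_option autoImplicit false

namespace Pool.Agent.H173R3.HS

open Polynomial Finset

namespace T3

theorem discr_map (φ : ℚ →+* ℂ) (f : ℚ[X]) : (f.map φ).discr = φ f.discr := by
  by_cases h0 : f.natDegree = 0
  · obtain ⟨r, rfl⟩ := Polynomial.natDegree_eq_zero.1 h0
    rw [Polynomial.map_C, discr_C, discr_C, map_one]
  · have hpos : 0 < f.degree := natDegree_pos_iff_degree_pos.1 (Nat.pos_of_ne_zero h0)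
    have hd : (f.map φ).natDegree = f.natDegree := natDegree_map φ
    have hpos' : 0 < (f.map φ).degree :=
      natDegree_pos_iff_degree_pos.1 (by rw [hd]; exact Nat.pos_of_ne_zero h0)
    have h1 := resultant_deriv hpos
    have h2 := resultant_deriv hpos'
    rw [derivative_map, resultant_map_map, hd, h1, leadingCoeff_map] at h2
    rw [map_mul, map_mul, map_pow, map_neg, map_one] at h2
    have hlc : φ f.leadingCoeff ≠ 0 := by
      rw [Ne, map_eq_zero, leadingCoeff_eq_zero]
      rintro rfl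
      simp at h0
    have hs : ((-1 : ℂ) ^ (f.natDegree * (f.natDegree - 1) / 2) * φ f.leadingCoeff) ≠ 0 :=
      mul_ne_zero (pow_ne_zero _ (by norm_num)) hlc
    exact (mul_left_cancel₀ hs h2).symm

theorem discN_map (φ : ℚ →+* ℂ) (N : ℕ) (P : ℚ[X]) :
    discN N (P.map φ) = φ (discN N P) := by
  unfold discN
  rw [natDegree_map, leadingCoeff_map, discr_map]
  split_ifs
  · rfl
  · rw [map_mul, map_pow]

theorem hsub_map (φ : ℚ →+* ℂ) (N : ℕ) (P : ℚ[X]) (a b c d : ℚ) :
    (hsub N P a b c d).map φ = hsub N (P.map φ) (φ a) (φ b) (φ c) (φ d) := by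
  unfold hsub
  simp [Polynomial.map_sum]

section

variable (a b c d : ℂ)

theorem hsub_X_mul (N : ℕ) (P : ℂ[X]) :
    hsub (N + 1) (X * P) a b c d = (C a * X + C b) * hsub N P a b c d := by
  unfold hsub
  rw [Finset.sum_range_succ', Finset.mul_sum]
  rw [Polynomial.mul_coeff_zero, coeff_X_zero, zero_mul, C_0, zero_mul, zero_mul, add_zero]
  refine Finset.sum_congr rfl fun i _ => ?_
  rw [coeff_X_mul, show N + 1 - (i + 1) = N - i by omega, pow_succ]
  ring

theorem hsub_succ (N : ℕ) (P : ℂ[X]) (hP : P.coeff (N + 1) = 0) :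
    hsub (N + 1) P a b c d = (C c * X + C d) * hsub N P a b c d := by
  unfold hsub
  rw [Finset.sum_range_succ, hP, C_0, zero_mul, zero_mul, add_zero, Finset.mul_sum]
  refine Finset.sum_congr rfl fun i hi => ?_
  rw [Finset.mem_range] at hi
  rw [show N + 1 - i = (N - i) + 1 by omega, pow_succ]
  ring

theorem hsub_sub (N : ℕ) (P Q : ℂ[X]) :
    hsub N (P - Q) a b c d = hsub N P a b c d - hsub N Q a b c d := by
  unfold hsub
  rw [← Finset.sum_sub_distrib]
  refine Finset.sum_congr rfl fun i _ => ?_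
  rw [coeff_sub, C_sub]
  ring

theorem hsub_C_mul (N : ℕ) (t : ℂ) (P : ℂ[X]) :
    hsub N (C t * P) a b c d = C t * hsub N P a b c d := by
  unfold hsub
  rw [Finset.mul_sum]
  refine Finset.sum_congr rfl fun i _ => ?_
  rw [coeff_C_mul, C_mul]
  ring

theorem coeff_prod (n : ℕ) (r : Fin n → ℂ) (k : ℕ) (hk : n < k) :
    (∏ i, (X - C (r i))).coeff k = 0 := by
  apply coeff_eq_zero_of_natDegree_lt
  rw [natDegree_prod_of_monic _ _ fun i _ => monic_X_sub_C _]
  simpa using hk

theorem hsub_prod : ∀ (n : ℕ) (r : Fin n → ℂ),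
    hsub (n + 1) (∏ i, (X - C (r i))) a b c d =
      (C c * X + C d) * ∏ i, (C (a - r i * c) * X + C (b - r i * d)) := by
  intro n
  induction n with
  | zero =>
    intro r
    unfold hsub
    simp [coeff_one]
  | succ n ih =>
    intro r
    rw [Fin.prod_univ_succ, Fin.prod_univ_succ, sub_mul, hsub_sub, hsub_X_mul, hsub_C_mul,
      hsub_succ _ _ _ _ (n + 1) _ (coeff_prod n _ _ (by omega)), ih]
    simp only [C_sub, C_mul]
    ring

end

theorem prod_erase_ite {n : ℕ} (i : Fin n) (g : Fin n → ℂ) :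
    ∏ j ∈ univ.erase i, g j = ∏ j, if j = i then 1 else g j := by
  rw [← Finset.mul_prod_erase univ _ (Finset.mem_univ i), if_pos rfl, one_mul]
  exact Finset.prod_congr rfl fun j hj => by rw [if_neg (Finset.ne_of_mem_erase hj)]

theorem prod_split {n : ℕ} (G : Fin (n + 1) → Fin (n + 1) → ℂ) :
    ∏ i, ∏ j ∈ univ.erase i, G i j = (∏ j : Fin n, G 0 j.succ) *
      ∏ i : Fin n, (G i.succ 0 * ∏ j ∈ univ.erase i, G i.succ j.succ) := by
  simp only [prod_erase_ite]
  rw [Fin.prod_univ_succ]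
  congr 1
  · rw [Fin.prod_univ_succ, if_pos rfl, one_mul]
    exact Finset.prod_congr rfl fun j _ => by rw [if_neg (Fin.succ_ne_zero j)]
  · refine Finset.prod_congr rfl fun i _ => ?_
    rw [Fin.prod_univ_succ, if_neg (Fin.succ_ne_zero i).symm]
    congr 1
    refine Finset.prod_congr rfl fun j _ => ?_
    simp only [Fin.succ_inj]

theorem exists_roots (s : Multiset ℂ) (n : ℕ) (h : s.card = n) :
    ∃ r : Fin n → ℂ, (s.map fun t => (X - C t : ℂ[X])).prod = ∏ i, (X - C (r i)) := by
  subst h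
  induction s using Quotient.inductionOn with
  | h l =>
    refine ⟨fun i => l.get i, ?_⟩
    have h1 : ∏ i : Fin l.length, (X - C (l.get i) : ℂ[X]) =
        (l.map fun t => (X - C t : ℂ[X])).prod := by
      rw [← List.prod_ofFn]
      congr 1
      conv_rhs => rw [← List.ofFn_get l, List.map_ofFn]
      rfl
    exact (Multiset.prod_coe _).trans h1.symm

theorem key (h1 : T1) (h2 : T2) (n : ℕ) (hn : 1 ≤ n) (r : Fin n → ℂ) (a b c d e : ℂ)
    (hD : a * d - b * c ≠ 0) (he : e ≠ 0) (hdis : (∏ i, (X - C (r i))).discr ≠ 0) :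
    discN (n + 1) (C (e ^ 2) * hsub (n + 1) (∏ i, (X - C (r i))) a b c d) =
      (e ^ 2) ^ (2 * n) * (a * d - b * c) ^ ((n + 1) * n) * (∏ i, (X - C (r i))).discr ∨
    discN (n + 1) (C (e ^ 2) * hsub (n + 1) (∏ i, (X - C (r i))) a b c d) =
      -((e ^ 2) ^ (2 * n) * (a * d - b * c) ^ ((n + 1) * n) * (∏ i, (X - C (r i))).discr) := by
  set Pd : ℂ := ∏ i, ∏ j ∈ univ.erase i, (r i - r j) with hPi
  have hT1 : (∏ i, (X - C (r i))).discr = Pd ∨ (∏ i, (X - C (r i))).discr = -Pd := by
    have := h1 n hn 1 one_ne_zero r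
    simpa only [C_1, one_mul, one_pow] using this
  have hPi0 : Pd ≠ 0 := by
    rcases hT1 with h | h
    · rwa [h] at hdis
    · rw [h] at hdis
      exact fun h' => hdis (by rw [h', neg_zero])
  have hrij : ∀ i j, i ≠ j → r i - r j ≠ 0 := by
    intro i j hij h
    apply hPi0
    rw [hPi]
    exact Finset.prod_eq_zero (Finset.mem_univ i)
      (Finset.prod_eq_zero (Finset.mem_erase.2 ⟨hij.symm, Finset.mem_univ j⟩) h)
  set α : Fin (n + 1) → ℂ := Fin.cons (e ^ 2 * c) (fun i => a - r i * c) with hα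
  set β : Fin (n + 1) → ℂ := Fin.cons (e ^ 2 * d) (fun i => b - r i * d) with hβ
  have hα0 : α 0 = e ^ 2 * c := rfl
  have hβ0 : β 0 = e ^ 2 * d := rfl
  have hαs : ∀ i : Fin n, α i.succ = a - r i * c := fun i => rfl
  have hβs : ∀ i : Fin n, β i.succ = b - r i * d := fun i => rfl
  have hss : ∀ i j : Fin n, α i.succ * β j.succ - α j.succ * β i.succ =
      (a * d - b * c) * (r i - r j) := by
    intro i j
    rw [hαs, hαs, hβs, hβs]
    ring
  have h0s : ∀ j : Fin n, α 0 * β j.succ - α j.succ * β 0 = -(e ^ 2 * (a * d - b * c)) := by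
    intro j
    rw [hαs, hβs, hα0, hβ0]
    ring
  have hs0 : ∀ j : Fin n, α j.succ * β 0 - α 0 * β j.succ = e ^ 2 * (a * d - b * c) := by
    intro j
    rw [hαs, hβs, hα0, hβ0]
    ring
  have heD : e ^ 2 * (a * d - b * c) ≠ 0 := mul_ne_zero (pow_ne_zero _ he) hD
  have hne : ∀ i j, i ≠ j → α i * β j - α j * β i ≠ 0 := by
    intro i j
    refine Fin.cases ?_ (fun i => ?_) i
    · refine Fin.cases ?_ (fun j => ?_) j
      · intro h; exact absurd rfl h
      · intro _
        rw [h0s]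
        exact neg_ne_zero.2 heD
    · refine Fin.cases ?_ (fun j => ?_) j
      · intro _
        rw [hs0]
        exact heD
      · intro h
        rw [hss]
        exact mul_ne_zero hD (hrij i j fun h' => h (by rw [h']))
  have hpoly : C (e ^ 2) * hsub (n + 1) (∏ i, (X - C (r i))) a b c d =
      ∏ i, (C (α i) * X + C (β i)) := by
    rw [hsub_prod, Fin.prod_univ_succ, hα0, hβ0]
    simp only [hαs, hβs]
    simp only [C_mul]
    ring
  have hprod : ∏ i, ∏ j ∈ univ.erase i, (α i * β j - α j * β i) =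
      (-1) ^ n * ((e ^ 2) ^ (2 * n) * (a * d - b * c) ^ ((n + 1) * n) * Pd) := by
    rw [prod_split]
    simp only [hss, h0s, hs0]
    rw [Finset.prod_const, Finset.card_univ, Fintype.card_fin, Finset.prod_mul_distrib,
      Finset.prod_const, Finset.card_univ, Fintype.card_fin]
    have h3 : ∀ i : Fin n, ∏ j ∈ univ.erase i, (a * d - b * c) * (r i - r j) =
        (a * d - b * c) ^ (n - 1) * ∏ j ∈ univ.erase i, (r i - r j) := by
      intro i
      rw [Finset.prod_mul_distrib, Finset.prod_const, Finset.card_erase_of_mem (Finset.mem_univ i),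
        Finset.card_univ, Fintype.card_fin]
    simp only [h3]
    rw [Finset.prod_mul_distrib, Finset.prod_const, Finset.card_univ, Fintype.card_fin, ← hPi,
      ← pow_mul]
    obtain ⟨m, rfl⟩ : ∃ m, n = m + 1 := ⟨n - 1, by omega⟩
    rw [Nat.add_sub_cancel, neg_pow (e ^ 2 * (a * d - b * c)),
      mul_pow (e ^ 2) (a * d - b * c) (m + 1)]
    generalize e ^ 2 = P
    generalize a * d - b * c = Q
    rw [show (m + 1 + 1) * (m + 1) = (m + 1) + (m + 1) + m * (m + 1) by ring,
      show 2 * (m + 1) = (m + 1) + (m + 1) by ring, pow_add P (m + 1) (m + 1),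
      pow_add Q (m + 1 + (m + 1)) (m * (m + 1)), pow_add Q (m + 1) (m + 1)]
    ring
  have hT2 := h2 (n + 1) (by omega) α β hne
  rw [← hpoly, hprod] at hT2
  rcases neg_one_pow_eq_or ℂ n with hs | hs <;> rw [hs] at hT2 <;>
    rcases hT1 with h | h <;> rw [h] <;> rcases hT2 with h' | h' <;> rw [h']
  · left; ring
  · right; ring
  · right; ring
  · left; ring
  · right; ring
  · left; ring
  · left; ring
  · right; ring

end T3

theorem t3 (h1 : T1) (h2 : T2) : Pool.Agent.H173R3.HS.T3 := by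
  intro N hN f hf hdeg hdis a b c d e hD he
  obtain ⟨n, rfl⟩ : ∃ n, N = n + 1 := ⟨N - 1, by omega⟩
  have hn : 1 ≤ n := by omega
  rw [Nat.add_sub_cancel] at hdeg
  let φ : ℚ →+* ℂ := algebraMap ℚ ℂ
  have hφ : Function.Injective φ := (algebraMap ℚ ℂ).injective
  have hmon : (f.map φ).Monic := hf.map φ
  have hsp : (f.map φ).Splits := IsAlgClosed.splits _
  have hcard : (f.map φ).roots.card = n := by
    rw [← hdeg, ← natDegree_map φ]
    exact splits_iff_card_roots.1 hsp
  obtain ⟨r, hr⟩ := T3.exists_roots _ n hcard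
  have hfr : f.map φ = ∏ i, (X - C (r i)) := by
    rw [← hr]
    exact hsp.eq_prod_roots_of_monic hmon
  have hdis' : (∏ i, (X - C (r i))).discr ≠ 0 := by
    rw [← hfr, T3.discr_map]
    exact fun h => hdis (hφ (by rw [h, map_zero]))
  have hD' : φ a * φ d - φ b * φ c ≠ 0 := by
    rw [← map_mul, ← map_mul, ← map_sub]
    exact fun h => hD (hφ (by rw [h, map_zero]))
  have he' : φ e ≠ 0 := fun h => he (hφ (by rw [h, map_zero]))
  have hk := T3.key h1 h2 n hn r (φ a) (φ b) (φ c) (φ d) (φ e) hD' he' hdis'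
  rw [← hfr, T3.discr_map] at hk
  have hmap : C (φ e ^ 2) * hsub (n + 1) (f.map φ) (φ a) (φ b) (φ c) (φ d) =
      (C (e ^ 2) * hsub (n + 1) f a b c d).map φ := by
    rw [Polynomial.map_mul, map_C, T3.hsub_map, map_pow φ]
  rw [hmap, T3.discN_map] at hk
  have h3 : (φ e ^ 2) ^ (2 * n) * (φ a * φ d - φ b * φ c) ^ ((n + 1) * n) * φ f.discr =
      φ ((e ^ 2) ^ (2 * (n + 1) - 2) * (a * d - b * c) ^ ((n + 1) * (n + 1 - 1)) * f.discr) := by
    rw [show 2 * (n + 1) - 2 = 2 * n by omega, Nat.add_sub_cancel]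
    simp only [map_mul, map_pow, map_sub]
  rw [h3, ← map_neg] at hk
  exact hk.imp (fun h => hφ h) (fun h => hφ h)

end Pool.Agent.H173R3.HS
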