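import Pool.Agent.H173R3.HS.Stmts

set_option autoImplicit false

namespace Pool.Agent.H173R3.HS

open Polynomial Finset

theorem T4_degree_lt {n : ℕ} (a : Fin n → ℤ) :
    (∑ i : Fin n, C (a i) * X ^ (i : ℕ) : ℤ[X]).degree < (n : WithBot ℕ) := by
  rw [← mem_degreeLT]
  refine Submodule.sum_mem _ fun i _ => ?_
  rw [mem_degreeLT]
  refine (degree_C_mul_X_pow_le _ _).trans_lt ?_
  exact_mod_cast i.2

theorem T4_monic {n : ℕ} (a : Fin n → ℤ) : (poly a).Monic :=
  monic_X_pow_add (T4_degree_lt a)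

theorem T4_natDegree {n : ℕ} (a : Fin n → ℤ) : (poly a).natDegree = n := by
  unfold poly
  apply natDegree_eq_of_degree_eq_some
  rw [degree_add_eq_left_of_degree_lt]
  · exact degree_X_pow n
  · rw [degree_X_pow]
    exact T4_degree_lt a

theorem T4_coeff {n : ℕ} (a : Fin n → ℤ) (j : ℕ) (hj : j < n) :
    (poly a).coeff j = a ⟨j, hj⟩ := by
  unfold poly
  rw [coeff_add, coeff_X_pow, if_neg hj.ne, zero_add, finsetSum_coeff]
  rw [Finset.sum_eq_single (⟨j, hj⟩ : Fin n)]
  · simp
  · intro i _ hi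
    rw [coeff_C_mul_X_pow, if_neg]
    intro h
    apply hi
    ext
    exact h.symm
  · intro h
    exact absurd (mem_univ _) h

theorem T4_half_sum (n : ℕ) : ∑ i ∈ range n, (1 / 2 : ℝ) ^ (n - i) < 1 := by
  induction n with
  | zero => simp
  | succ n ih =>
    rw [Finset.sum_range_succ]
    have h : ∑ i ∈ range n, (1 / 2 : ℝ) ^ (n + 1 - i) =
        (1 / 2) * ∑ i ∈ range n, (1 / 2 : ℝ) ^ (n - i) := by
      rw [Finset.mul_sum]
      refine Finset.sum_congr rfl fun i hi => ?_
      rw [mem_range] at hi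
      have : n + 1 - i = (n - i) + 1 := by omega
      rw [this, pow_succ]
      ring
    rw [h]
    have h2 : n + 1 - n = 1 := by omega
    rw [h2, pow_one]
    linarith

/-- coefficient bound for the complex polynomial -/
theorem T4_coeff_le {n H : ℕ} (a : Fin n → ℤ)
    (ha : ∀ i : Fin n, |a i| ≤ (H : ℤ) ^ (n - (i : ℕ))) (j : ℕ) (hj : j ≤ n) :
    ‖((poly a).map (Int.castRingHom ℂ)).coeff j‖ ≤ (H : ℝ) ^ (n - j) := by
  rw [coeff_map]
  rcases hj.lt_or_eq with h | h
  · rw [T4_coeff a j h]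
    have h1 := ha ⟨j, h⟩
    simp only [eq_intCast, Complex.norm_intCast]
    have h2 : ((|a ⟨j, h⟩| : ℤ) : ℝ) ≤ (((H : ℤ) ^ (n - j) : ℤ) : ℝ) := by exact_mod_cast h1
    push_cast at h2
    exact h2
  · subst h
    have : (poly a).coeff j = 1 := by
      have h1 := T4_monic a
      rw [Monic, leadingCoeff, T4_natDegree] at h1
      exact h1
    rw [this]
    simp

theorem T4_root_le {n H : ℕ} (hH : 1 ≤ H) (a : Fin n → ℤ)
    (ha : ∀ i : Fin n, |a i| ≤ (H : ℤ) ^ (n - (i : ℕ))) (r : ℂ)
    (hr : ((poly a).map (Int.castRingHom ℂ)).eval r = 0) : ‖r‖ ≤ 2 * H := by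
  set F := (poly a).map (Int.castRingHom ℂ) with hF
  by_contra hcon
  push Not at hcon
  have hH' : (1 : ℝ) ≤ H := by exact_mod_cast hH
  have hx : 0 < ‖r‖ := by linarith
  have hdeg : F.natDegree = n := by
    rw [hF, (T4_monic a).natDegree_map, T4_natDegree]
  have hlead : F.coeff n = 1 := by
    have := (T4_monic a).map (Int.castRingHom ℂ)
    rw [← hF, Monic, leadingCoeff, hdeg] at this
    exact this
  rw [eval_eq_sum_range' (n := n + 1) (by omega), Finset.sum_range_succ, hlead, one_mul] at hr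
  have h1 : r ^ n = -∑ i ∈ range n, F.coeff i * r ^ i := by
    rw [eq_neg_iff_add_eq_zero, add_comm]
    exact hr
  have h2 : ‖r‖ ^ n ≤ ∑ i ∈ range n, ‖r‖ ^ n * (1 / 2 : ℝ) ^ (n - i) := by
    have h0 : ‖r‖ ^ n = ‖∑ i ∈ range n, F.coeff i * r ^ i‖ := by
      rw [← norm_pow, h1, norm_neg]
    refine h0.le.trans (norm_sum_le_of_le _ ?_)
    intro i hi
    rw [mem_range] at hi
    rw [norm_mul, norm_pow]
    have h3 := T4_coeff_le a ha i hi.le
    rw [← hF] at h3
    have h4 : (H : ℝ) ^ (n - i) ≤ (‖r‖ * (1 / 2)) ^ (n - i) := by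
      apply pow_le_pow_left₀ (by linarith)
      linarith
    have h5 : ‖r‖ ^ n = ‖r‖ ^ (n - i) * ‖r‖ ^ i := by
      rw [← pow_add]
      congr 1
      omega
    rw [h5]
    calc ‖F.coeff i‖ * ‖r‖ ^ i ≤ (‖r‖ * (1 / 2)) ^ (n - i) * ‖r‖ ^ i :=
          mul_le_mul_of_nonneg_right (h3.trans h4) (by positivity)
      _ = _ := by rw [mul_pow]; ring
  rw [← Finset.mul_sum] at h2
  have h6 := T4_half_sum n
  have h7 : 0 < ‖r‖ ^ n := by positivity
  nlinarith

theorem T4_deriv_le {n H : ℕ} (hn : 1 ≤ n) (hH : 1 ≤ H) (a : Fin n → ℤ)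
    (ha : ∀ i : Fin n, |a i| ≤ (H : ℤ) ^ (n - (i : ℕ))) (r : ℂ)
    (hr : ((poly a).map (Int.castRingHom ℂ)).eval r = 0) :
    ‖((poly a).map (Int.castRingHom ℂ)).derivative.eval r‖ ≤
      (n * n * 2 ^ n) * (H : ℝ) ^ (n - 1) := by
  have hr2 := T4_root_le hH a ha r hr
  set F := (poly a).map (Int.castRingHom ℂ) with hF
  have hdeg : F.natDegree = n := by
    rw [hF, (T4_monic a).natDegree_map, T4_natDegree]
  have hd : F.derivative.natDegree < n := by
    have := natDegree_derivative_le F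
    omega
  rw [eval_eq_sum_range' hd]
  have h1 : ∀ i ∈ range n, ‖F.derivative.coeff i * r ^ i‖ ≤ n * 2 ^ n * (H : ℝ) ^ (n - 1) := by
    intro i hi
    rw [mem_range] at hi
    rw [coeff_derivative, norm_mul, norm_mul, norm_pow]
    have h2 := T4_coeff_le a ha (i + 1) (by omega)
    rw [← hF] at h2
    have h3 : ‖((i : ℂ) + 1)‖ ≤ n := by
      have : ((i : ℂ) + 1) = ((i + 1 : ℕ) : ℂ) := by push_cast; ring
      rw [this, Complex.norm_natCast]
      exact_mod_cast hi
    have h4 : ‖r‖ ^ i ≤ 2 ^ n * (H : ℝ) ^ i := by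
      calc ‖r‖ ^ i ≤ (2 * (H : ℝ)) ^ i := pow_le_pow_left₀ (norm_nonneg _) hr2 i
        _ = 2 ^ i * (H : ℝ) ^ i := mul_pow _ _ _
        _ ≤ 2 ^ n * (H : ℝ) ^ i := by
          apply mul_le_mul_of_nonneg_right _ (by positivity)
          exact pow_le_pow_right₀ (by norm_num) hi.le
    calc ‖F.coeff (i + 1)‖ * ‖((i : ℂ) + 1)‖ * ‖r‖ ^ i
        ≤ (H : ℝ) ^ (n - (i + 1)) * n * (2 ^ n * (H : ℝ) ^ i) := by
          apply mul_le_mul _ h4 (by positivity) (by positivity)
          exact mul_le_mul h2 h3 (norm_nonneg _) (by positivity)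
      _ = n * 2 ^ n * ((H : ℝ) ^ (n - (i + 1)) * (H : ℝ) ^ i) := by ring
      _ = n * 2 ^ n * (H : ℝ) ^ (n - 1) := by
          rw [← pow_add]
          congr 2
          omega
  refine (norm_sum_le_of_le _ h1).trans ?_
  rw [Finset.sum_const, card_range, nsmul_eq_mul]
  apply le_of_eq
  ring

theorem t4 : Pool.Agent.H173R3.HS.T4 := by
  intro n hn
  refine ⟨((n * n * 2 ^ n : ℕ) : ℝ) ^ n, ?_, ?_⟩
  · apply one_le_pow₀
    have : 1 ≤ n * n * 2 ^ n := Nat.mul_pos (Nat.mul_pos hn hn) (by positivity)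
    exact_mod_cast this
  · intro H hH a ha
    set f := poly a with hf
    have hmon : f.Monic := T4_monic a
    have hdeg : f.natDegree = n := T4_natDegree a
    set F := f.map (Int.castRingHom ℂ) with hF
    have hFdeg : F.natDegree = n := by rw [hF, hmon.natDegree_map, hdeg]
    have hFmon : F.Monic := hmon.map _
    have h1 := resultant_deriv (f := f) (by
      rw [← natDegree_pos_iff_degree_pos, hdeg]
      omega)
    rw [hmon.leadingCoeff, mul_one, hdeg] at h1
    have h2 : resultant F F.derivative n (n - 1) =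
        ((resultant f f.derivative n (n - 1) : ℤ) : ℂ) := by
      rw [hF, derivative_map, resultant_map_map]
      rfl
    have h3 := resultant_eq_prod_eval F F.derivative (n - 1)
      (by rw [← hFdeg]; exact natDegree_derivative_le F) (IsAlgClosed.splits F)
    rw [hFdeg, hFmon.leadingCoeff, one_pow, one_mul] at h3
    have h4 : ‖(F.roots.map F.derivative.eval).prod‖ ≤
        ((n * n * 2 ^ n) * (H : ℝ) ^ (n - 1)) ^ n := by
      have hcard : (F.roots.map (fun r => F.derivative.eval r)).card = n := by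
        rw [Multiset.card_map, ← hFdeg]
        exact ((IsAlgClosed.splits F).natDegree_eq_card_roots).symm
      have hgen : ∀ (s : Multiset ℂ) (B : ℝ), 0 ≤ B → (∀ x ∈ s, ‖x‖ ≤ B) →
          ‖s.prod‖ ≤ B ^ s.card := by
        intro s B hB
        induction s using Multiset.induction_on with
        | empty => intro _; simp
        | cons x s ih =>
          intro hs
          rw [Multiset.prod_cons, norm_mul, Multiset.card_cons, pow_succ, mul_comm]
          exact mul_le_mul (ih fun y hy => hs y (Multiset.mem_cons_of_mem hy))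
            (hs x (Multiset.mem_cons_self x s)) (norm_nonneg _) (by positivity)
      have := hgen (F.roots.map (fun r => F.derivative.eval r))
        ((n * n * 2 ^ n) * (H : ℝ) ^ (n - 1)) (by positivity) (by
          intro x hx
          rw [Multiset.mem_map] at hx
          obtain ⟨r, hr, rfl⟩ := hx
          rw [mem_roots hFmon.ne_zero] at hr
          exact T4_deriv_le hn hH a ha r hr)
      rw [hcard] at this
      exact this
    rw [← h3, h2, h1] at h4
    have h5 : ‖((((-1) ^ (n * (n - 1) / 2) * f.discr : ℤ)) : ℂ)‖ = ((f.discr.natAbs : ℕ) : ℝ) := by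
      push_cast
      rw [norm_mul, norm_pow, norm_neg, norm_one, one_pow, one_mul, Complex.norm_intCast]
      rw [Nat.cast_natAbs, Int.cast_abs]
    rw [h5] at h4
    refine h4.trans (le_of_eq ?_)
    rw [mul_pow, ← pow_mul, mul_comm (n - 1) n]
    push_cast
    ring

end Pool.Agent.H173R3.HS
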