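import Pool.Agent.H173R3.HS.Stmts

/-! Task T5 of project H173-HS: few constant coefficients give the same discriminant. -/

set_option autoImplicit false

namespace Pool.Agent.H173R3.HS

open Polynomial Finset

namespace T5aux

lemma poly_monic {n : ℕ} (a : Fin n → ℤ) : (poly a).Monic :=
  monic_X_pow_add (degree_sum_fin_lt a)

lemma poly_natDegree {n : ℕ} (a : Fin n → ℤ) : (poly a).natDegree = n := by
  unfold poly
  have h := degree_sum_fin_lt a
  have h1 : (X ^ n + ∑ i : Fin n, C (a i) * X ^ (i : ℕ) : ℤ[X]).degree = n := by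
    rw [degree_add_eq_left_of_degree_lt (by rw [degree_X_pow]; exact h), degree_X_pow]
  exact natDegree_eq_of_degree_eq_some h1

lemma poly_cons {n : ℕ} (t : ℤ) (b : Fin n → ℤ) :
    poly (Fin.cons t b : Fin (n + 1) → ℤ) = poly (Fin.cons 0 b : Fin (n + 1) → ℤ) + C t := by
  unfold poly
  rw [Fin.sum_univ_succ, Fin.sum_univ_succ]
  simp
  ring

end T5aux

open T5aux in
theorem t5 : T5 := by
  intro n hn a D
  set b : Fin n → ℤ := fun i => a i.succ with hb
  set φ : ℤ →+* ℂ := Int.castRingHom ℂ with hφ
  set f0 : ℤ[X] := poly (Fin.cons 0 b : Fin (n + 1) → ℤ) with hf0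
  have hF : ∀ t : ℤ, poly (Fin.cons t b : Fin (n + 1) → ℤ) = f0 + C t := fun t => poly_cons t b
  have hdeg : ∀ t : ℤ, (f0 + C t).natDegree = n + 1 := fun t => by
    rw [← hF]; exact poly_natDegree _
  have hmon : ∀ t : ℤ, (f0 + C t).Monic := fun t => by
    rw [← hF]; exact poly_monic _
  have hder : ∀ t : ℤ, (f0 + C t).derivative = f0.derivative := fun t => by simp
  set g : ℂ[X] := f0.derivative.map φ with hg
  have hinj : Function.Injective φ := Int.cast_injective
  have hf0deg : f0.natDegree = n + 1 := poly_natDegree _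
  have hf0mon : f0.Monic := poly_monic _
  have hgder : g = (f0.map φ).derivative := by rw [hg, derivative_map]
  have hmdeg : (f0.map φ).natDegree = n + 1 := by
    rw [natDegree_map_eq_of_injective hinj, hf0deg]
  have hgdeg : g.natDegree = n := by
    rw [hgder, natDegree_derivative, hmdeg]
    rfl
  have hg0 : g ≠ 0 := by
    intro h
    rw [h, natDegree_zero] at hgdeg
    omega
  have hsplit : g.Splits := IsAlgClosed.splits g
  -- the discriminant as a product over the zeros of the derivative
  have key : ∀ t : ℤ, φ ((-1) ^ ((n + 1) * n / 2) * (f0 + C t).discr) =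
      (-1) ^ ((n + 1) * n) * (g.leadingCoeff ^ (n + 1) *
        (g.roots.map (fun θ => (f0.map φ).eval θ + t)).prod) := by
    intro t
    have h1 := resultant_deriv (f := f0 + C t) (by
      rw [← natDegree_pos_iff_degree_pos, hdeg]; omega)
    rw [hdeg, hder, (hmon t).leadingCoeff, mul_one, Nat.add_sub_cancel] at h1
    rw [← h1, ← resultant_map_map, resultant_comm]
    congr 1
    have h2 := resultant_eq_prod_eval g ((f0 + C t).map φ) (n + 1) (by
      rw [natDegree_map_eq_of_injective hinj, hdeg]) hsplit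
    rw [hgdeg] at h2
    rw [h2]
    congr 2
    apply Multiset.map_congr rfl
    intro θ _
    simp [hφ]
  set P : ℂ[X] := (g.roots.map (fun θ => X + C ((f0.map φ).eval θ))).prod with hP
  have hPm : P.Monic := by
    rw [hP]
    exact monic_multiset_prod_of_monic _ _ (fun θ _ => monic_X_add_C _)
  have hPdeg : P.natDegree = n := by
    rw [hP, natDegree_multiset_prod_of_monic]
    · simp only [Multiset.map_map, Function.comp_apply, natDegree_X_add_C, Multiset.map_const',
        Multiset.sum_replicate, smul_eq_mul, mul_one]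
      rw [← hsplit.natDegree_eq_card_roots, hgdeg]
    · intro p hp
      obtain ⟨θ, _, rfl⟩ := Multiset.mem_map.mp hp
      exact monic_X_add_C _
  have hPev : ∀ t : ℤ, P.eval (t : ℂ) = (g.roots.map (fun θ => (f0.map φ).eval θ + t)).prod := by
    intro t
    rw [hP, eval_multiset_prod, Multiset.map_map]
    congr 1
    apply Multiset.map_congr rfl
    intro θ _
    simp [add_comm]
  set c : ℂ := (-1) ^ ((n + 1) * n) * g.leadingCoeff ^ (n + 1) with hc
  have hc0 : c ≠ 0 := by
    rw [hc]
    exact mul_ne_zero (pow_ne_zero _ (by norm_num)) (pow_ne_zero _ (leadingCoeff_ne_zero.mpr hg0))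
  set Q : ℂ[X] := C c * P - C (φ ((-1) ^ ((n + 1) * n / 2) * D)) with hQ
  have hQdeg : Q.natDegree = n := by
    rw [hQ, natDegree_sub_C, natDegree_C_mul hc0, hPdeg]
  have hQ0 : Q ≠ 0 := by
    intro h
    rw [h, natDegree_zero] at hQdeg
    omega
  have hroot : ∀ t : ℤ, (poly (Fin.cons t b : Fin (n + 1) → ℤ)).discr = D →
      (t : ℂ) ∈ Q.roots.toFinset := by
    intro t ht
    rw [hF] at ht
    have h1 := key t
    rw [ht, ← hPev] at h1
    rw [Multiset.mem_toFinset, mem_roots hQ0, IsRoot.def, hQ, eval_sub, eval_mul, eval_C, eval_C,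
      h1, hc]
    ring
  have hfin : ∀ S : Set ℤ, (∀ t ∈ S, (t : ℂ) ∈ Q.roots.toFinset) → S.Finite ∧ S.ncard ≤ n := by
    intro S hS
    have hinj' : Set.InjOn (fun t : ℤ => (t : ℂ)) S := fun x _ y _ h => Int.cast_injective h
    have himg : (fun t : ℤ => (t : ℂ)) '' S ⊆ (Q.roots.toFinset : Set ℂ) := by
      rintro _ ⟨t, ht, rfl⟩
      exact hS t ht
    have hfin' : ((fun t : ℤ => (t : ℂ)) '' S).Finite := Q.roots.toFinset.finite_toSet.subset himg
    refine ⟨hfin'.of_finite_image hinj', ?_⟩
    rw [← hinj'.ncard_image]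
    refine (Set.ncard_le_ncard himg Q.roots.toFinset.finite_toSet).trans ?_
    rw [Set.ncard_coe_finset]
    exact (Multiset.toFinset_card_le _).trans ((card_roots' Q).trans hQdeg.le)
  exact hfin _ (fun t ht => hroot t ht)

end Pool.Agent.H173R3.HS
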