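import Pool.Agent.H173R3.HS.Stmts

/-!
# Task T6: integers of small radical
-/

set_option autoImplicit false

namespace Pool.Agent.H173R3.HS

open Finset

namespace T6

/-- `m ↦ m^(-δ)` -/
noncomputable def ff (δ : ℝ) : ℕ →* ℝ where
  toFun m := (m : ℝ) ^ (-δ)
  map_one' := by simp
  map_mul' a b := by
    rw [Nat.cast_mul, Real.mul_rpow (Nat.cast_nonneg _) (Nat.cast_nonneg _)]

theorem ff_apply (δ : ℝ) (m : ℕ) : ff δ m = (m : ℝ) ^ (-δ) := rfl

theorem ff_nonneg (δ : ℝ) (m : ℕ) : 0 ≤ ff δ m := Real.rpow_nonneg (Nat.cast_nonneg _) _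

theorem ff_lt {δ : ℝ} (hδ : 0 < δ) {p : ℕ} (hp : p.Prime) : ff δ p ≤ (2 : ℝ) ^ (-δ) := by
  rw [ff_apply]
  have h2 : (2 : ℝ) ≤ p := by exact_mod_cast hp.two_le
  exact Real.rpow_le_rpow_of_nonpos (by norm_num) h2 (by linarith)

theorem two_lt {δ : ℝ} (hδ : 0 < δ) : (2 : ℝ) ^ (-δ) < 1 :=
  Real.rpow_lt_one_of_one_lt_of_neg (by norm_num) (by linarith)

theorem prod_bound {δ : ℝ} (hδ : 0 < δ) : ∃ A : ℝ, 0 < A ∧ ∀ s : Finset ℕ, (∀ p ∈ s, p.Prime) →
    ∏ p ∈ s, (1 - ff δ p)⁻¹ ≤ A * ((∏ p ∈ s, p : ℕ) : ℝ) ^ δ := by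
  set c : ℝ := (1 - (2 : ℝ) ^ (-δ))⁻¹ with hc
  have h2 := two_lt hδ
  have h2' : (0 : ℝ) < (2 : ℝ) ^ (-δ) := Real.rpow_pos_of_pos (by norm_num) _
  have hc1 : 1 ≤ c := by
    rw [hc]
    exact (one_le_inv₀ (by linarith)).2 (by linarith)
  set N : ℕ := ⌈(2 : ℝ) ^ (1 / δ)⌉₊ with hN
  refine ⟨c ^ N, by positivity, fun s hs => ?_⟩
  have key : ∀ p ∈ s, (1 - ff δ p)⁻¹ ≤ (if p < N then c else 1) * (p : ℝ) ^ δ := by
    intro p hp
    have hpp := hs p hp
    have hp1 : (1 : ℝ) ≤ p := by exact_mod_cast hpp.one_le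
    have hf := ff_lt hδ hpp
    split_ifs with h
    · have h3 : (1 - ff δ p)⁻¹ ≤ c := by
        rw [hc]
        exact inv_anti₀ (by linarith) (by linarith)
      have h4 : (1 : ℝ) ≤ (p : ℝ) ^ δ := Real.one_le_rpow hp1 hδ.le
      nlinarith
    · rw [one_mul]
      have h5 : (2 : ℝ) ^ (1 / δ) ≤ p := by
        refine (Nat.le_ceil _).trans ?_
        exact_mod_cast (not_lt.1 h)
      have h6 : (2 : ℝ) ≤ (p : ℝ) ^ δ := by
        calc (2 : ℝ) = ((2 : ℝ) ^ (1 / δ)) ^ δ := by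
              rw [← Real.rpow_mul (by norm_num), one_div_mul_cancel hδ.ne', Real.rpow_one]
          _ ≤ (p : ℝ) ^ δ := Real.rpow_le_rpow (by positivity) h5 hδ.le
      have h7 : ff δ p = ((p : ℝ) ^ δ)⁻¹ := by
        rw [ff_apply, Real.rpow_neg (by positivity)]
      rw [h7]
      set t : ℝ := (p : ℝ) ^ δ with ht
      have ht0 : 0 < t := by linarith
      have h8 : t⁻¹ ≤ 1 - t⁻¹ := by
        have : t⁻¹ ≤ 2⁻¹ := inv_anti₀ (by norm_num) h6
        linarith [show (2 : ℝ)⁻¹ = 1 / 2 by norm_num]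
      calc (1 - t⁻¹)⁻¹ ≤ (t⁻¹)⁻¹ := inv_anti₀ (by positivity) h8
        _ = t := inv_inv t
  have hnn : ∀ p ∈ s, 0 ≤ (1 - ff δ p)⁻¹ := by
    intro p hp
    have hf := ff_lt hδ (hs p hp)
    exact inv_nonneg.2 (by linarith)
  calc ∏ p ∈ s, (1 - ff δ p)⁻¹ ≤ ∏ p ∈ s, ((if p < N then c else 1) * (p : ℝ) ^ δ) :=
        Finset.prod_le_prod hnn key
    _ = (∏ p ∈ s, (if p < N then c else 1)) * ∏ p ∈ s, (p : ℝ) ^ δ := Finset.prod_mul_distrib
    _ ≤ c ^ N * ((∏ p ∈ s, p : ℕ) : ℝ) ^ δ := by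
        have e1 : ∏ p ∈ s, (if p < N then c else 1) ≤ c ^ N := by
          rw [Finset.prod_ite, Finset.prod_const, Finset.prod_const_one, mul_one]
          refine pow_le_pow_right₀ hc1 ?_
          calc (s.filter (fun p => p < N)).card ≤ (range N).card := by
                refine Finset.card_le_card fun p hp => ?_
                rw [Finset.mem_filter] at hp
                exact Finset.mem_range.2 hp.2
            _ = N := Finset.card_range N
        have e2 : ∏ p ∈ s, (p : ℝ) ^ δ = ((∏ p ∈ s, p : ℕ) : ℝ) ^ δ := by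
          rw [Nat.cast_prod, Real.finsetProd_rpow _ _ (fun p _ => Nat.cast_nonneg p)]
        rw [e2]
        exact mul_le_mul_of_nonneg_right e1 (Real.rpow_nonneg (Nat.cast_nonneg _) _)

theorem fibre {δ : ℝ} (hδ : 0 < δ) : ∃ A : ℝ, 0 < A ∧ ∀ X r : ℕ, 1 ≤ X →
    ((((Icc 1 X).filter fun m => rad m = r).card : ℕ) : ℝ) ≤ A * (X : ℝ) ^ (2 * δ) := by
  obtain ⟨A, hA, hB⟩ := prod_bound hδ
  refine ⟨A, hA, fun X r hX => ?_⟩
  set S := (Icc 1 X).filter fun m => rad m = r with hS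
  have hX0 : (0 : ℝ) < X := by exact_mod_cast hX
  rcases S.eq_empty_or_nonempty with h | ⟨m₀, hm₀⟩
  · rw [h]; simp only [Finset.card_empty, Nat.cast_zero]; positivity
  have hm₀' := Finset.mem_filter.1 hm₀
  have hm₀1 := Finset.mem_Icc.1 hm₀'.1
  have hpf : ∀ m : ℕ, (rad m).primeFactors = m.primeFactors := fun m => by
    rw [rad]; exact Nat.primeFactors_prod (fun p hp => Nat.prime_of_mem_primeFactors hp)
  have hrX : r ≤ X := by
    rw [← hm₀'.2]
    refine le_trans (Nat.le_of_dvd (by omega) ?_) hm₀1.2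
    exact Nat.prod_primeFactors_dvd m₀
  have hrad : ∏ p ∈ r.primeFactors, p = r := by
    rw [← hm₀'.2, hpf]; rfl
  have hsum := EulerProduct.summable_and_hasSum_factoredNumbers_prod_filter_prime_geometric
    (f := ff δ) (fun {p} hp => by
      rw [Real.norm_of_nonneg (ff_nonneg _ _)]
      exact (ff_lt hδ hp).trans_lt (two_lt hδ)) r.primeFactors
  have hmem : ∀ m ∈ S, m ∈ Nat.factoredNumbers r.primeFactors := by
    intro m hm
    have hm' := Finset.mem_filter.1 hm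
    have hm1 := Finset.mem_Icc.1 hm'.1
    rw [Nat.mem_factoredNumbers_iff_primeFactors_subset]
    refine ⟨by omega, ?_⟩
    rw [← hm'.2, hpf]
  have h1 : ∑ m ∈ S, ff δ m ≤ ∏ p ∈ r.primeFactors with p.Prime, (1 - ff δ p)⁻¹ := by
    classical
    rw [← Finset.sum_subtype_of_mem (fun m => ff δ m) hmem]
    exact sum_le_hasSum _ (fun i _ => ff_nonneg _ _) hsum.2
  have h2 : ∏ p ∈ r.primeFactors with p.Prime, (1 - ff δ p)⁻¹ ≤ A * (r : ℝ) ^ δ := by
    have h3 : r.primeFactors.filter (fun p => p.Prime) = r.primeFactors :=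
      Finset.filter_true_of_mem fun p hp => Nat.prime_of_mem_primeFactors hp
    rw [h3]
    have h4 := hB r.primeFactors (fun p hp => Nat.prime_of_mem_primeFactors hp)
    rwa [hrad] at h4
  have h5 : (S.card : ℝ) ≤ (X : ℝ) ^ δ * ∑ m ∈ S, ff δ m := by
    rw [Finset.mul_sum, Finset.card_eq_sum_ones, Nat.cast_sum]
    refine Finset.sum_le_sum fun m hm => ?_
    have hm' := Finset.mem_filter.1 hm
    have hm1 := Finset.mem_Icc.1 hm'.1
    have hm0 : (0 : ℝ) < m := by exact_mod_cast (show 0 < m by omega)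
    have hmX : (m : ℝ) ≤ X := by exact_mod_cast hm1.2
    rw [Nat.cast_one, ff_apply, Real.rpow_neg hm0.le, ← div_eq_mul_inv,
      one_le_div (Real.rpow_pos_of_pos hm0 _)]
    exact Real.rpow_le_rpow hm0.le hmX hδ.le
  have h6 : (r : ℝ) ^ δ ≤ (X : ℝ) ^ δ :=
    Real.rpow_le_rpow (Nat.cast_nonneg _) (by exact_mod_cast hrX) hδ.le
  calc (S.card : ℝ) ≤ (X : ℝ) ^ δ * ∑ m ∈ S, ff δ m := h5
    _ ≤ (X : ℝ) ^ δ * (A * (X : ℝ) ^ δ) := by
        refine mul_le_mul_of_nonneg_left ?_ (by positivity)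
        exact (h1.trans h2).trans (mul_le_mul_of_nonneg_left h6 hA.le)
    _ = A * (X : ℝ) ^ (2 * δ) := by
        rw [two_mul, Real.rpow_add hX0]; ring

end T6

theorem t6 : T6 := by
  intro ε hε
  obtain ⟨A, hA, hB⟩ := T6.fibre (δ := ε / 2) (by positivity)
  refine ⟨A, hA, fun X R hX hR => ?_⟩
  set S := (Icc 1 X).filter fun m => ((rad m : ℕ) : ℝ) ≤ R with hS
  have hmaps : ∀ m ∈ S, rad m ∈ Icc 1 ⌊R⌋₊ := by
    intro m hm
    have hm' := Finset.mem_filter.1 hm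
    refine Finset.mem_Icc.2 ⟨?_, Nat.le_floor hm'.2⟩
    exact Finset.prod_pos fun p hp => (Nat.prime_of_mem_primeFactors hp).pos
  have h1 : S.card = ∑ r ∈ Icc 1 ⌊R⌋₊, (S.filter fun m => rad m = r).card :=
    Finset.card_eq_sum_card_fiberwise hmaps
  have h2 : ∀ r ∈ Icc 1 ⌊R⌋₊, (((S.filter fun m => rad m = r).card : ℕ) : ℝ) ≤
      A * (X : ℝ) ^ ε := by
    intro r _
    have h3 : (S.filter fun m => rad m = r).card ≤ ((Icc 1 X).filter fun m => rad m = r).card := by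
      refine Finset.card_le_card fun m hm => ?_
      have hm' := Finset.mem_filter.1 hm
      exact Finset.mem_filter.2 ⟨(Finset.mem_filter.1 hm'.1).1, hm'.2⟩
    have h4 := hB X r hX
    rw [show 2 * (ε / 2) = ε by ring] at h4
    exact le_trans (by exact_mod_cast h3) h4
  have hX0 : (0 : ℝ) < X := by exact_mod_cast hX
  calc ((S.card : ℕ) : ℝ) = ∑ r ∈ Icc 1 ⌊R⌋₊, (((S.filter fun m => rad m = r).card : ℕ) : ℝ) := by
        rw [h1, Nat.cast_sum]
    _ ≤ ∑ _r ∈ Icc 1 ⌊R⌋₊, A * (X : ℝ) ^ ε := Finset.sum_le_sum h2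
    _ = (⌊R⌋₊ : ℝ) * (A * (X : ℝ) ^ ε) := by
        rw [Finset.sum_const, Nat.card_Icc, nsmul_eq_mul]; simp
    _ ≤ R * (A * (X : ℝ) ^ ε) := by
        refine mul_le_mul_of_nonneg_right (Nat.floor_le (by linarith)) (by positivity)
    _ = A * R * (X : ℝ) ^ ε := by ring

end Pool.Agent.H173R3.HS
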