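import Pool.Agent.H173R3.HS.Stmts

/-!
# H173-HS: task T7
-/

set_option autoImplicit false

namespace Pool.Agent.H173R3.HS

open Finset

theorem t7 : T7 := by
  intro k m hk hm
  set v : ℕ → ℕ := fun p => m.factorization p with hv
  have hm' : ∏ p ∈ m.primeFactors, p ^ v p = m := by
    have h := Nat.prod_factorization_pow_eq_self hm
    rw [Finsupp.prod] at h
    exact h
  have hle : ∀ p ∈ m.primeFactors, p ^ k ≤
      ((if p = 2 then 2 ^ k else 1) * (if p ≠ 2 ∧ v p < k then p ^ k else 1)) * p ^ v p := by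
    intro p hp
    have hp1 : 1 ≤ p := (Nat.prime_of_mem_primeFactors hp).one_lt.le
    have hpv : 1 ≤ p ^ v p := Nat.one_le_pow _ _ hp1
    by_cases h2 : p = 2
    · rw [if_pos h2, if_neg (by tauto), mul_one, h2]
      exact Nat.le_mul_of_pos_right _ (by positivity)
    · by_cases h3 : v p < k
      · rw [if_neg h2, if_pos ⟨h2, h3⟩, one_mul]
        exact Nat.le_mul_of_pos_right _ hpv
      · rw [if_neg h2, if_neg (by tauto), one_mul, one_mul]
        exact Nat.pow_le_pow_right hp1 (by omega)
  have h1 : (rad m) ^ k = ∏ p ∈ m.primeFactors, p ^ k := by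
    rw [rad, Finset.prod_pow]
  rw [h1]
  refine (Finset.prod_le_prod' hle).trans ?_
  rw [Finset.prod_mul_distrib, Finset.prod_mul_distrib, hm']
  refine Nat.mul_le_mul_right m ?_
  rw [mul_pow]
  refine Nat.mul_le_mul ?_ (le_of_eq ?_)
  · rw [Finset.prod_ite_eq']
    split_ifs
    · exact le_rfl
    · exact Nat.one_le_two_pow
  · rw [← Finset.prod_filter, Finset.prod_pow]

end Pool.Agent.H173R3.HS
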