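import Pool.Agent.H173R3.HS.Stmts

set_option autoImplicit false

namespace Pool.Agent.H173R3.HS

open Polynomial Finset

lemma t8_monic {n : ℕ} (a : Fin n → ℤ) : (poly a).Monic :=
  monic_X_pow_add (degree_sum_fin_lt a)

lemma t8_natDegree {n : ℕ} (a : Fin n → ℤ) : (poly a).natDegree = n :=
  by
    have h : (∑ i : Fin n, C (a i) * X ^ (i : ℕ) : ℤ[X]).degree < (X ^ n : ℤ[X]).degree := by
      rw [degree_X_pow]; exact degree_sum_fin_lt a
    unfold poly
    rw [natDegree_add_eq_left_of_degree_lt h, natDegree_X_pow]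

lemma t8_discr {f : ℤ[X]} (hf : f.Monic) (h : 0 < f.natDegree) :
    (f.map (Int.castRingHom ℚ)).discr = ((f.discr : ℤ) : ℚ) := by
  have hn : (f.map (Int.castRingHom ℚ)).natDegree = f.natDegree := hf.natDegree_map _
  have h1 := resultant_deriv (f := f) (natDegree_pos_iff_degree_pos.mp h)
  have h2 := resultant_deriv (f := f.map (Int.castRingHom ℚ))
    (natDegree_pos_iff_degree_pos.mp (by rw [hn]; exact h))
  rw [derivative_map, hn, resultant_map_map, h1, hf.leadingCoeff, (hf.map _).leadingCoeff,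
    map_mul, map_mul, map_pow, map_neg, map_one, mul_one] at h2
  have h3 : ((-1 : ℚ)) ^ (f.natDegree * (f.natDegree - 1) / 2) ≠ 0 :=
    pow_ne_zero _ (by norm_num)
  exact (mul_left_cancel₀ h3 h2).symm

lemma t8_hsub (N : ℕ) (P : ℚ[X]) (h : P.natDegree ≤ N) : hsub N P 1 0 0 1 = P := by
  unfold hsub
  conv_rhs => rw [as_sum_range_C_mul_X_pow' P (Nat.lt_succ_of_le h)]
  refine sum_congr rfl fun i _ => ?_
  simp

lemma t8_model (g p : ℕ) (hp : p.Prime) (f : ℤ[X]) (hf : f.Monic) (hd : f.natDegree = 2 * g + 1) :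
    IsModel g p (f.map (Int.castRingHom ℚ)) (f.map (Int.castRingHom ℚ)) 0 := by
  have hn : (f.map (Int.castRingHom ℚ)).natDegree = 2 * g + 1 := by
    rw [hf.natDegree_map, hd]
  refine ⟨?_, ?_, ?_, ?_, ?_⟩
  · intro i
    rw [coeff_map, eq_intCast, Rat.den_intCast]
    exact hp.one_lt.ne' ∘ Nat.dvd_one.mp
  · intro i
    rw [coeff_zero, Rat.den_zero]
    exact hp.one_lt.ne' ∘ Nat.dvd_one.mp
  · rw [hn, natDegree_zero]; omega
  · rw [hn, natDegree_zero]; omega
  · refine ⟨1, 0, 0, 1, 1, by norm_num, by norm_num, ?_⟩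
    rw [t8_hsub _ _ (by rw [hn]; omega)]
    simp

lemma t8_disc0 (g : ℕ) (f : ℤ[X]) (hf : f.Monic) (hd : f.natDegree = 2 * g + 1) :
    modelDisc g (f.map (Int.castRingHom ℚ)) 0 = (((2 ^ (4 * g) * f.discr : ℤ)) : ℚ) := by
  have hn : (f.map (Int.castRingHom ℚ)).natDegree = 2 * g + 1 := by
    rw [hf.natDegree_map, hd]
  have e1 : f.map (Int.castRingHom ℚ) + C (1 / 4) * (0 : ℚ[X]) ^ 2 =
      f.map (Int.castRingHom ℚ) := by simp
  unfold modelDisc discN
  rw [e1, if_neg (by rw [hn]; omega), (hf.map _).leadingCoeff, t8_discr hf (by omega)]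
  push_cast
  ring

lemma t8_le (g p : ℕ) (hp : p.Prime) (f : ℤ[X]) (hf : f.Monic) (hd : f.natDegree = 2 * g + 1) :
    minExp g p (f.map (Int.castRingHom ℚ)) ≤
      (2 ^ (4 * g) * f.discr.natAbs).factorization p := by
  apply Nat.sInf_le
  refine ⟨_, 0, t8_model g p hp f hf hd, ?_⟩
  rw [t8_disc0 g f hf hd, padicValRat.of_int, padicValInt, Int.natAbs_mul, Int.natAbs_pow,
    Nat.factorization_def _ hp]
  rfl

lemma t8_key (h3 : T3) (g p : ℕ) (hp : p.Prime) (hp2 : p ≠ 2) (f : ℤ[X])
    (hf : f.Monic) (hd : f.natDegree = 2 * g + 1) (hD : f.discr ≠ 0)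
    (h0 : minExp g p (f.map (Int.castRingHom ℚ)) = 0) :
    4 * g + 2 ∣ f.discr.natAbs.factorization p := by
  have : Fact p.Prime := ⟨hp⟩
  have hn : (f.map (Int.castRingHom ℚ)).natDegree = 2 * g + 1 := by
    rw [hf.natDegree_map, hd]
  have hdisc := t8_discr hf (by omega)
  have hne : {k : ℕ | ∃ F G, IsModel g p (f.map (Int.castRingHom ℚ)) F G ∧
      padicValRat p (modelDisc g F G) = k}.Nonempty := by
    refine ⟨(2 ^ (4 * g) * f.discr.natAbs).factorization p, _, 0, t8_model g p hp f hf hd, ?_⟩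
    rw [t8_disc0 g f hf hd, padicValRat.of_int, padicValInt, Int.natAbs_mul, Int.natAbs_pow,
      Nat.factorization_def _ hp]
    rfl
  have hmem := Nat.sInf_mem hne
  have h0' : sInf {k : ℕ | ∃ F G, IsModel g p (f.map (Int.castRingHom ℚ)) F G ∧
      padicValRat p (modelDisc g F G) = k} = 0 := h0
  rw [h0'] at hmem
  obtain ⟨F, G, hM, hv⟩ := hmem
  obtain ⟨a, b, c, d, e, hdet, he, hiso⟩ := hM.iso
  have hD' : (f.map (Int.castRingHom ℚ)).discr ≠ 0 := by
    rw [hdisc]; exact_mod_cast hD
  have ht3 := h3 (2 * g + 2) (by omega) (f.map (Int.castRingHom ℚ)) (hf.map _)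
    (by rw [hn]; omega) hD' a b c d e hdet he
  set u : ℚ := (e ^ 2) ^ (2 * (2 * g + 2) - 2) *
    (a * d - b * c) ^ ((2 * g + 2) * (2 * g + 2 - 1)) * (f.map (Int.castRingHom ℚ)).discr with hu
  have e1 : 2 * (2 * g + 2) - 2 = 4 * g + 2 := by omega
  have e2 : (2 * g + 2) * (2 * g + 2 - 1) = (4 * g + 2) * (g + 1) := by
    have : 2 * g + 2 - 1 = 2 * g + 1 := by omega
    rw [this]; ring
  have hu0 : u ≠ 0 := by
    rw [hu]
    exact mul_ne_zero (mul_ne_zero (pow_ne_zero _ (pow_ne_zero _ he)) (pow_ne_zero _ hdet)) hD'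
  have hvm : padicValRat p (modelDisc g F G) = padicValRat p (2 ^ (4 * g) * u) := by
    unfold modelDisc
    rw [hiso]
    rcases ht3 with h | h
    · rw [h]
    · rw [h, mul_neg, padicValRat.neg]
  have hv2 : padicValRat p 2 = 0 := by
    have h1 : padicValRat p ((2 : ℕ) : ℚ) = padicValNat p 2 := padicValRat.of_nat
    have h2 : padicValNat p 2 = 0 := by
      apply padicValNat.eq_zero_of_not_dvd
      intro h
      exact hp2 ((Nat.prime_dvd_prime_iff_eq hp Nat.prime_two).mp h)
    rw [h2] at h1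
    exact_mod_cast h1
  have hval : padicValRat p (2 ^ (4 * g) * u) =
      ((4 * g + 2 : ℕ) : ℤ) * (2 * padicValRat p e) +
        (((4 * g + 2) * (g + 1) : ℕ) : ℤ) * padicValRat p (a * d - b * c) +
        padicValRat p (f.map (Int.castRingHom ℚ)).discr := by
    rw [padicValRat.mul (pow_ne_zero _ (by norm_num)) hu0, padicValRat.pow, hv2, mul_zero, zero_add,
      hu, e1, e2, padicValRat.mul (mul_ne_zero (pow_ne_zero _ (pow_ne_zero _ he))
        (pow_ne_zero _ hdet)) hD', padicValRat.mul (pow_ne_zero _ (pow_ne_zero _ he))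
        (pow_ne_zero _ hdet), padicValRat.pow, padicValRat.pow, padicValRat.pow]
    push_cast
    ring
  rw [hvm, hval, hdisc, padicValRat.of_int, padicValInt, ← Nat.factorization_def _ hp] at hv
  have hfin : ((4 * g + 2 : ℕ) : ℤ) ∣ ((f.discr.natAbs.factorization p : ℕ) : ℤ) := by
    refine ⟨-(2 * padicValRat p e + (g + 1) * padicValRat p (a * d - b * c)), ?_⟩
    push_cast at hv ⊢
    linarith
  exact_mod_cast hfin

theorem t8 (h3 : T3) : T8 := by
  classical
  intro g hg a hD
  set f := poly a with hf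
  have hm : f.Monic := t8_monic a
  have hd : f.natDegree = 2 * g + 1 := t8_natDegree a
  have hN0 : f.discr.natAbs ≠ 0 := Int.natAbs_ne_zero.mpr hD
  set M := 2 ^ (4 * g) * f.discr.natAbs with hM
  have hM0 : M ≠ 0 := mul_ne_zero (pow_ne_zero _ (by norm_num)) hN0
  have hle : ∀ p : ℕ, p.Prime → minExp g p (f.map (Int.castRingHom ℚ)) ≤ M.factorization p :=
    fun p hp => t8_le g p hp f hm hd
  constructor
  · have h1 : minDisc g (f.map (Int.castRingHom ℚ)) =
        ∏ p ∈ M.primeFactors, p ^ minExp g p (f.map (Int.castRingHom ℚ)) := by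
      unfold minDisc
      apply finprod_mem_eq_prod_of_inter_mulSupport_eq
      ext p
      simp only [Set.mem_inter_iff, Set.mem_ofPred_eq, Function.mem_mulSupport, Finset.mem_coe]
      constructor
      · rintro ⟨hp, h⟩
        refine ⟨?_, h⟩
        rw [← Nat.support_factorization, Finsupp.mem_support_iff]
        intro h0
        apply h
        have := hle p hp
        rw [h0] at this
        rw [Nat.le_zero.mp this, pow_zero]
      · rintro ⟨hp, h⟩
        exact ⟨Nat.prime_of_mem_primeFactors hp, h⟩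
    rw [h1]
    calc ∏ p ∈ M.primeFactors, p ^ minExp g p (f.map (Int.castRingHom ℚ))
        ≤ ∏ p ∈ M.primeFactors, p ^ M.factorization p := by
          apply Finset.prod_le_prod'
          intro p hp
          have hp' := Nat.prime_of_mem_primeFactors hp
          exact Nat.pow_le_pow_right hp'.pos (hle p hp')
      _ = M := by
          have := Nat.prod_factorization_pow_eq_self hM0
          rwa [Finsupp.prod, Nat.support_factorization] at this
  · have h1 : badProd g (f.map (Int.castRingHom ℚ)) =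
        ∏ p ∈ M.primeFactors.filter (fun p => minExp g p (f.map (Int.castRingHom ℚ)) ≠ 0), p := by
      unfold badProd
      apply finprod_mem_eq_prod_of_inter_mulSupport_eq
      ext p
      simp only [Set.mem_inter_iff, Set.mem_ofPred_eq, Function.mem_mulSupport, Finset.mem_coe,
        Finset.mem_filter]
      constructor
      · rintro ⟨⟨hp, h⟩, h'⟩
        refine ⟨⟨?_, h⟩, h'⟩
        rw [← Nat.support_factorization, Finsupp.mem_support_iff]
        intro h0
        apply h
        have := hle p hp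
        rw [h0] at this
        exact Nat.le_zero.mp this
      · rintro ⟨⟨hp, h⟩, h'⟩
        exact ⟨⟨Nat.prime_of_mem_primeFactors hp, h⟩, h'⟩
    rw [h1]
    apply Finset.prod_le_prod_of_subset_of_one_le'
    · intro p hp
      rw [Finset.mem_filter] at hp ⊢
      obtain ⟨hpD, hp2, hlt⟩ := hp
      have hpp := Nat.prime_of_mem_primeFactors hpD
      refine ⟨?_, ?_⟩
      · rw [Nat.mem_primeFactors]
        exact ⟨hpp, Dvd.dvd.mul_left (Nat.dvd_of_mem_primeFactors hpD) _, hM0⟩
      · intro h0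
        have hk := t8_key h3 g p hpp hp2 f hm hd hD h0
        have hpos : 0 < f.discr.natAbs.factorization p := by
          rw [Nat.pos_iff_ne_zero, ← Finsupp.mem_support_iff, Nat.support_factorization]
          exact hpD
        have := Nat.le_of_dvd hpos hk
        omega
    · intro p hp _
      rw [Finset.mem_filter] at hp
      exact (Nat.prime_of_mem_primeFactors hp.1).one_lt.le

end Pool.Agent.H173R3.HS
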